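import Pool.Agent.W_448fw_h5.FwE

/-!
# Second variation lemma (MP_448cb3_co, G2, S7), file SvA: terms on parts, convolution (helper97)
-/

namespace Pool.Agent.GaussPoset.Sv

set_option linter.unusedSectionVars false

open Polynomial Finset

universe u

variable {P : Type u} [Fintype P] [PartialOrder P] [DecidableEq P]

open Classical in
/-- the part on `S` of the term of `e` -/
noncomputable def tS (S : Finset P) (i : ℕ) (e : P → ℕ) : ℤ[X] :=
  if ∀ x ∈ S, ¬ (FI i e x ∧ FA i e x) then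
    X ^ (S.filter (fun x => FI i e x)).card *
      (1 + X) ^ (S.filter (fun x => ¬ FI i e x ∧ ¬ FA i e x)).card
  else 0

open Classical in
lemma tS_univ (i : ℕ) (e : P → ℕ) :
    tS univ i e = if Adm i e then X ^ (nf i e) * (1 + X) ^ (Pk i e).card else 0 := by
  unfold tS Adm nf Pk
  simp

lemma tS_zero {S : Finset P} {i : ℕ} {e : P → ℕ} {x : P} (hx : x ∈ S) (h1 : FI i e x)
    (h2 : FA i e x) : tS S i e = 0 := by
  unfold tS
  rw [if_neg]
  push Not
  exact ⟨x, hx, h1, h2⟩

lemma tS_of {S : Finset P} {i : ℕ} {e : P → ℕ} (FF PP : Finset P) (hF : FF ⊆ S) (hPP : PP ⊆ S)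
    (h1 : ∀ x ∈ S, (FI i e x ↔ x ∈ FF)) (h2 : ∀ x ∈ S, (FA i e x ↔ x ∉ FF ∧ x ∉ PP)) 
    (h3 : Disjoint FF PP) : tS S i e = X ^ FF.card * (1 + X) ^ PP.card := by
  classical
  unfold tS
  rw [if_pos]
  · have e1 : S.filter (fun x => FI i e x) = FF := by
      ext x
      rw [mem_filter]
      exact ⟨fun h => (h1 x h.1).mp h.2, fun h => ⟨hF h, (h1 x (hF h)).mpr h⟩⟩
    have e2 : S.filter (fun x => ¬ FI i e x ∧ ¬ FA i e x) = PP := by
      ext x
      rw [mem_filter]
      constructor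
      · rintro ⟨hx, h4, h5⟩
        rw [h1 x hx] at h4
        rw [h2 x hx] at h5
        by_contra h6
        exact h5 ⟨h4, h6⟩
      · intro hx
        have hxS := hPP hx
        refine ⟨hxS, ?_, ?_⟩
        · rw [h1 x hxS]
          exact fun h => (Finset.disjoint_left.mp h3) h hx
        · rw [h2 x hxS]
          exact fun h => h.2 hx
    rw [e1, e2]
  · rintro x hx ⟨h4, h5⟩
    exact ((h2 x hx).mp h5).1 ((h1 x hx).mp h4)

lemma tS_congr {S : Finset P} {i : ℕ} {e e' : P → ℕ} (h1 : ∀ x ∈ S, (FI i e x ↔ FI i e' x))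
    (h2 : ∀ x ∈ S, (FA i e x ↔ FA i e' x)) : tS S i e = tS S i e' := by
  classical
  unfold tS
  have e1 : S.filter (fun x => FI i e x) = S.filter (fun x => FI i e' x) :=
    Finset.filter_congr h1
  have e2 : S.filter (fun x => ¬ FI i e x ∧ ¬ FA i e x) =
      S.filter (fun x => ¬ FI i e' x ∧ ¬ FA i e' x) :=
    Finset.filter_congr fun x hx => by rw [h1 x hx, h2 x hx]
  have e3 : (∀ x ∈ S, ¬ (FI i e x ∧ FA i e x)) ↔ (∀ x ∈ S, ¬ (FI i e' x ∧ FA i e' x)) :=
    forall₂_congr fun x hx => by rw [h1 x hx, h2 x hx]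
  rw [e1, e2]
  by_cases h : ∀ x ∈ S, ¬ (FI i e x ∧ FA i e x)
  · rw [if_pos h, if_pos (e3.mp h)]
  · rw [if_neg h, if_neg (fun h' => h (e3.mpr h'))]

lemma tS_union {S T : Finset P} (hd : Disjoint S T) (i : ℕ) (e : P → ℕ) :
    tS (S ∪ T) i e = tS S i e * tS T i e := by
  classical
  unfold tS
  by_cases hS : ∀ x ∈ S, ¬ (FI i e x ∧ FA i e x)
  · by_cases hT : ∀ x ∈ T, ¬ (FI i e x ∧ FA i e x)
    · rw [if_pos hS, if_pos hT, if_pos]
      · rw [Finset.filter_union, Finset.filter_union, Finset.card_union_of_disjoint,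
          Finset.card_union_of_disjoint, pow_add, pow_add]
        · ring
        · exact Finset.disjoint_filter_filter hd
        · exact Finset.disjoint_filter_filter hd
      · intro x hx
        rcases mem_union.mp hx with h | h
        · exact hS x h
        · exact hT x h
    · rw [if_neg hT, mul_zero, if_neg]
      exact fun h => hT fun x hx => h x (mem_union_right _ hx)
  · rw [if_neg hS, zero_mul, if_neg]
    exact fun h => hS fun x hx => h x (mem_union_left _ hx)

/-- two peaks -/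
lemma dvd_tS {S : Finset P} {i : ℕ} {e : P → ℕ} {b : ℕ}
    (h : (∀ x ∈ S, ¬ (FI i e x ∧ FA i e x)) → ∃ T ⊆ S, b ≤ T.card ∧ ∀ x ∈ T, ¬ FI i e x ∧ ¬ FA i e x) :
    (1 + X : ℤ[X]) ^ b ∣ tS S i e := by
  classical
  unfold tS
  split_ifs with hA
  · obtain ⟨T, hT, hb, hp⟩ := h hA
    refine dvd_mul_of_dvd_right (pow_dvd_pow _ (hb.trans (Finset.card_le_card ?_))) _
    intro x hx
    exact mem_filter.mpr ⟨hT hx, hp x hx⟩
  · exact dvd_zero _

lemma rho_congr {i : ℕ} {e e' : P → ℕ} {x : P} (h : e x = e' x) : rho i e x = rho i e' x := by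
  unfold rho
  rw [h]

lemma FI_local_aux {S : Finset P} {i : ℕ} {e e' : P → ℕ} (heq : ∀ x ∈ S, e x = e' x)
    (hJ : ∀ x, x ∉ S → (∃ y ∈ S, x < y) → i ≤ lev x ∧ e x = 0) {x : P}
    (hx : x ∈ S) (h : FI i e x) : FI i e' x := by
  rcases h with h | ⟨w, hw, h⟩
  · left
    rwa [← rho_congr (heq x hx)]
  · by_cases hwS : w ∈ S
    · right
      refine ⟨w, hw, ?_⟩
      rwa [← rho_congr (heq x hx), ← rho_congr (heq w hwS)]
    · left
      obtain ⟨h1, h2⟩ := hJ w hwS ⟨x, hx, hw⟩
      rw [← rho_congr (heq x hx)]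
      have h3 : rho i e w = 0 := by
        unfold rho
        rw [h2, show i - lev w = 0 by omega]
        simp
      rwa [h3] at h

/-- locality of `FI` -/
lemma FI_local {S : Finset P} {i : ℕ} {e e' : P → ℕ} (heq : ∀ x ∈ S, e x = e' x)
    (hJ : ∀ x, x ∉ S → (∃ y ∈ S, x < y) → i ≤ lev x ∧ e x = 0 ∧ e' x = 0) {x : P}
    (hx : x ∈ S) : FI i e x ↔ FI i e' x :=
  ⟨FI_local_aux heq (fun x h1 h2 => ⟨(hJ x h1 h2).1, (hJ x h1 h2).2.1⟩) hx,
    FI_local_aux (fun x hx => (heq x hx).symm)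
      (fun x h1 h2 => ⟨(hJ x h1 h2).1, (hJ x h1 h2).2.2⟩) hx⟩

/-- locality of `FA` -/
lemma FA_local {S : Finset P} (hup : ∀ x ∈ S, ∀ y, x ≤ y → y ∈ S) {i : ℕ} {e e' : P → ℕ}
    (heq : ∀ x ∈ S, e x = e' x) {x : P} (hx : x ∈ S) : FA i e x ↔ FA i e' x := by
  unfold FA
  refine exists_congr fun y => and_congr_right fun hxy => ?_
  rw [rho_congr (heq x hx), rho_congr (heq y (hup x hx y hxy.le))]

/-- an element of level `> i` which is not raised is forced out -/
lemma FA_of_zero {i : ℕ} {e : P → ℕ} {x : P} (hx : i < lev x) (h0 : e x = 0) : FA i e x := by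
  obtain ⟨y, hy, hy2⟩ := exists_above' (x := x) (j := i) hx.le
  have hne : x ≠ y := by rintro rfl; omega
  refine ⟨y, lt_of_le_of_ne hy hne, ?_⟩
  rw [rho_of_lt hx, h0]
  unfold rho
  rw [hy2]
  simp

/-- an element above a raised one is forced in, if it is not raised -/
lemma FI_of_raised {i : ℕ} {e : P → ℕ} {x y : P} (hy : i < lev y) (h0 : e x = 0) (h1 : 1 ≤ e y)
    (h : y < x) : FI i e x := by
  right
  refine ⟨y, h, ?_⟩
  rw [rho_of_lt hy]
  unfold rho
  rw [h0]
  push_cast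
  omega

/-- restriction -/
def rs (S : Finset P) (e : P → ℕ) (x : P) : ℕ := if x ∈ S then e x else 0

lemma rs_of {S : Finset P} {e : P → ℕ} {x : P} (h : x ∈ S) : rs S e x = e x := if_pos h

lemma rs_not {S : Finset P} {e : P → ℕ} {x : P} (h : x ∉ S) : rs S e x = 0 := if_neg h

lemma conv {A B : Finset P} (hd : Disjoint A B) (F G : (P → ℕ) → ℤ[X]) (n : ℕ) :
    ∑ e ∈ (A ∪ B).piAntidiag n, F (rs A e) * G (rs B e) =
      ∑ p ∈ HasAntidiagonal.antidiagonal n,
        (∑ a ∈ A.piAntidiag p.1, F a) * (∑ b ∈ B.piAntidiag p.2, G b) := by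
  classical
  have h1 : ∀ p ∈ HasAntidiagonal.antidiagonal n, (∑ a ∈ A.piAntidiag p.1, F a) * (∑ b ∈ B.piAntidiag p.2, G b) =
      ∑ q ∈ A.piAntidiag p.1 ×ˢ B.piAntidiag p.2, F q.1 * G q.2 := by
    intro p _
    rw [Finset.sum_mul_sum, Finset.sum_product]
  rw [Finset.sum_congr rfl h1, Finset.sum_sigma']
  refine Finset.sum_bij' (fun e _ => (⟨(∑ x ∈ A, e x, ∑ x ∈ B, e x), (rs A e, rs B e)⟩ :
    (_ : ℕ × ℕ) × ((P → ℕ) × (P → ℕ)))) (fun s _ => fun x => s.2.1 x + s.2.2 x) ?_ ?_ ?_ ?_ ?_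
  · intro e he
    rw [mem_piAntidiag] at he
    simp only [mem_sigma, HasAntidiagonal.mem_antidiagonal, mem_product, mem_piAntidiag]
    refine ⟨?_, ⟨?_, ?_⟩, ?_, ?_⟩
    · rw [← he.1, Finset.sum_union hd]
    · exact Finset.sum_congr rfl fun x hx => rs_of hx
    · intro x hx
      by_contra hxA
      exact hx (rs_not hxA)
    · exact Finset.sum_congr rfl fun x hx => rs_of hx
    · intro x hx
      by_contra hxA
      exact hx (rs_not hxA)
  · rintro ⟨⟨a, b⟩, u, v⟩ hs
    simp only [mem_sigma, HasAntidiagonal.mem_antidiagonal, mem_product, mem_piAntidiag] at hs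
    obtain ⟨h2, ⟨h3, h4⟩, h5, h6⟩ := hs
    rw [mem_piAntidiag]
    constructor
    · rw [Finset.sum_union hd, Finset.sum_add_distrib, Finset.sum_add_distrib, h3, h5]
      have h7 : ∑ x ∈ A, v x = 0 := Finset.sum_eq_zero fun x hx => by
        by_contra hc
        exact (Finset.disjoint_left.mp hd) hx (h6 x hc)
      have h8 : ∑ x ∈ B, u x = 0 := Finset.sum_eq_zero fun x hx => by
        by_contra hc
        exact (Finset.disjoint_left.mp hd) (h4 x hc) hx
      rw [h7, h8]
      omega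
    · intro x hx
      rw [mem_union]
      by_cases h7 : u x = 0
      · exact Or.inr (h6 x (by simp only at hx; omega))
      · exact Or.inl (h4 x h7)
  · intro e he
    rw [mem_piAntidiag] at he
    funext x
    show rs A e x + rs B e x = e x
    by_cases hA : x ∈ A
    · rw [rs_of hA, rs_not (Finset.disjoint_left.mp hd hA), add_zero]
    · rw [rs_not hA, zero_add]
      by_cases hB : x ∈ B
      · rw [rs_of hB]
      · rw [rs_not hB]
        by_contra hc
        rcases mem_union.mp (he.2 x (Ne.symm hc)) with h | h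
        · exact hA h
        · exact hB h
  · rintro ⟨⟨a, b⟩, u, v⟩ hs
    simp only [mem_sigma, HasAntidiagonal.mem_antidiagonal, mem_product, mem_piAntidiag] at hs
    obtain ⟨h2, ⟨h3, h4⟩, h5, h6⟩ := hs
    have hu : ∀ x ∉ A, u x = 0 := fun x hx => by
      by_contra hc
      exact hx (h4 x hc)
    have hv : ∀ x ∉ B, v x = 0 := fun x hx => by
      by_contra hc
      exact hx (h6 x hc)
    have e1 : rs A (fun x => u x + v x) = u := by
      funext x
      by_cases hA : x ∈ A
      · rw [rs_of hA, hv x (Finset.disjoint_left.mp hd hA), add_zero]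
      · rw [rs_not hA, hu x hA]
    have e2 : rs B (fun x => u x + v x) = v := by
      funext x
      by_cases hB : x ∈ B
      · rw [rs_of hB, hu x (Finset.disjoint_right.mp hd hB), zero_add]
      · rw [rs_not hB, hv x hB]
    have e3 : ∑ x ∈ A, (u x + v x) = a := by
      rw [← h3]
      exact Finset.sum_congr rfl fun x hx => by rw [hv x (Finset.disjoint_left.mp hd hx), add_zero]
    have e4 : ∑ x ∈ B, (u x + v x) = b := by
      rw [← h5]
      exact Finset.sum_congr rfl fun x hx => by rw [hu x (Finset.disjoint_right.mp hd hx), zero_add]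
    simp only [e1, e2, e3, e4]
  · intro e he
    rfl

open Classical in
/-- the part of the window sum in which `z` is dangerous -/
noncomputable def TZ (i : ℕ) (h : P → ℕ) (z : P) (n : ℕ) : ℤ[X] :=
  ∑ F : Finset P, ∑ _e ∈ ((univ : Finset P).piAntidiag n).filter
    (fun e => Vd i e F ∧ Dgz h e F z), (X : ℤ[X]) ^ F.card

open Classical in
lemma sum_vd' (i : ℕ) (e : P → ℕ) :
    ∑ F : Finset P, (if Vd i e F then (X : ℤ[X]) ^ F.card else 0) = tS univ i e := by
  rw [tS_univ, ← sum_vd]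

/-- shift by the cheapest excess function -/
lemma TZ_shift {i : ℕ} {h : P → ℕ} {z : P} (hz : i < lev z) (hz2 : h z ≤ lev z - i) (n : ℕ) :
    TZ i h z (cst i h z + n) = ∑ d ∈ (univ : Finset P).piAntidiag n,
      tS univ i (fun x => ez i h z x + d x) := by
  classical
  have h1 : ∀ d ∈ (univ : Finset P).piAntidiag n, tS univ i (fun x => ez i h z x + d x) =
      ∑ F : Finset P, (if Vd i (fun x => ez i h z x + d x) F then (X : ℤ[X]) ^ F.card else 0) :=
    fun d _ => (sum_vd' i _).symm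
  rw [Finset.sum_congr rfl h1, Finset.sum_comm]
  unfold TZ
  refine Finset.sum_congr rfl fun F _ => ?_
  rw [← Finset.sum_filter]
  symm
  refine Finset.sum_bij (fun d _ => fun x => ez i h z x + d x) ?_ ?_ ?_ (fun _ _ => rfl)
  · intro d hd
    rw [mem_filter, mem_piAntidiag] at hd
    rw [mem_filter, mem_piAntidiag]
    refine ⟨⟨?_, fun _ _ => mem_univ _⟩, hd.2, Or.inr ?_⟩
    · rw [Finset.sum_add_distrib, hd.1.1]
      rfl
    · show h z ≤ ez i h z z + d z
      rw [ez_self hz2]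
      omega
  · intro d _ d' _ he
    funext x
    have h3 : ez i h z x + d x = ez i h z x + d' x := congrFun he x
    omega
  · intro e he
    rw [mem_filter, mem_piAntidiag] at he
    obtain ⟨⟨he1, -⟩, hV, hd⟩ := he
    have h4 : ∀ x, ez i h z x ≤ e x := ez_le hV hz hd
    have h2 : (fun x => ez i h z x + (e x - ez i h z x)) = e := by
      funext x
      have := h4 x
      omega
    refine ⟨fun x => e x - ez i h z x, ?_, h2⟩
    rw [mem_filter, mem_piAntidiag]
    refine ⟨⟨?_, fun _ _ => mem_univ _⟩, ?_⟩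
    · have h3 : ∑ x, (ez i h z x + (e x - ez i h z x)) = ∑ x, e x :=
        Finset.sum_congr rfl fun x _ => congrFun h2 x
      rw [Finset.sum_add_distrib, he1] at h3
      unfold cst at h3
      omega
    · rw [h2]
      exact hV

/-- intermediate levels -/
lemma exists_between (hgr : GradedBelow P) {x w : P} (hxw : x ≤ w) {l : ℕ} (h1 : lev w ≤ l)
    (h2 : l ≤ lev x) : ∃ c, x ≤ c ∧ c ≤ w ∧ lev c = l := by
  obtain ⟨m, rfl⟩ : ∃ m, l = lev w + m := ⟨l - lev w, by omega⟩
  clear h1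
  induction m with
  | zero => exact ⟨w, hxw, le_rfl, rfl⟩
  | succ m ih =>
    obtain ⟨c, h3, h4, h5⟩ := ih (by omega)
    have hlt : x < c := by
      refine lt_of_le_of_ne h3 ?_
      rintro rfl
      omega
    obtain ⟨c', h6, h7, h8⟩ := hgr x c hlt
    exact ⟨c', h6, h7.le.trans h4, by omega⟩

/-- a raised element of level `≥ i + 3` forces three raised elements -/
lemma three_raised (hgr : GradedBelow P) {i : ℕ} {S : Finset P} {e d : P → ℕ} {x w : P} (hxS : x ∈ S)
    (hS : ∀ c, x ≤ c → i < lev c → c ≤ w → c ∈ S) (hx : i + 3 ≤ lev x) (hxw : x ≤ w)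
    (hw : lev w ≤ i + 1) (hed : ∀ c, x ≤ c → c ≤ w → e c = d c) (hd : 1 ≤ d x)
    (hA : ∀ c ∈ S, ¬ (FI i e c ∧ FA i e c)) (U : Finset P) (hU : ∀ c, x ≤ c → c ≤ w → c ∈ U) :
    3 ≤ ∑ c ∈ U, d c := by
  classical
  obtain ⟨a, ha1, ha2, ha3⟩ := exists_between hgr hxw (l := i + 2) (by omega) (by omega)
  obtain ⟨b, hb1, hb2, hb3⟩ := exists_between hgr ha2 (l := i + 1) (by omega) (by omega)
  have hxa : x < a := lt_of_le_of_ne ha1 (by rintro rfl; omega)
  have hab : a < b := lt_of_le_of_ne hb1 (by rintro rfl; omega)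
  have key : ∀ c, x < c → c ≤ w → i < lev c → 1 ≤ d c := by
    intro c h1 h2 h3
    by_contra h4
    have h5 : e c = 0 := by rw [hed c h1.le h2]; omega
    refine hA c (hS c h1.le h3 h2) ⟨?_, FA_of_zero h3 h5⟩
    refine FI_of_raised (y := x) (by omega) h5 ?_ h1
    rw [hed x le_rfl hxw]
    exact hd
  have h1 := key a hxa ha2 (by omega)
  have h2 := key b (hxa.trans hab) hb2 (by omega)
  have h3 : ({x, a, b} : Finset P) ⊆ U := by
    intro c hc
    simp only [mem_insert, mem_singleton] at hc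
    rcases hc with rfl | rfl | rfl
    · exact hU _ le_rfl hxw
    · exact hU _ ha1 ha2
    · exact hU _ (ha1.trans hb1) hb2
  have h4 : ∑ c ∈ ({x, a, b} : Finset P), d c ≤ ∑ c ∈ U, d c := Finset.sum_le_sum_of_subset h3
  rw [Finset.sum_insert (by simp [hxa.ne, (hxa.trans hab).ne]), Finset.sum_insert (by simp [hab.ne]),
    Finset.sum_singleton] at h4
  omega

end Pool.Agent.GaussPoset.Sv
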