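import Pool.Agent.W_448sv_h97.SvA
import Pool.Agent.W_448fw_h5.FwG
import Pool.Agent.W_448fw_h5.FwN

/-!
# Second variation lemma (MP_448cb3_co, G2, S7), file SvB: the setting, two peaks (helper97)
-/

namespace Pool.Agent.GaussPoset.Sv

set_option linter.unusedSectionVars false

open Polynomial Finset

universe u

variable {P : Type u} [Fintype P] [PartialOrder P] [DecidableEq P]

/-- the setting of the second variation lemma -/
structure SV (i : ℕ) (h : P → ℕ) (z x p q y0 y1 y2 t : P) : Prop where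
  gr : GradedBelow P
  lz : lev z = i + h z + 2
  h5 : 5 ≤ h z
  zx : ∀ w, z ⋖ w ↔ w = x
  xp : ∀ w, x ⋖ w ↔ w = p ∨ w = q
  pq : p ≠ q
  py : ∀ w, p ⋖ w ↔ w = y0 ∨ w = y1
  qy : ∀ w, q ⋖ w ↔ w = y2 ∨ w = y1
  y01 : y0 ≠ y1
  y21 : y2 ≠ y1
  y02 : y0 ≠ y2
  y1c : ∀ v, y1 ⋖ v → y0 ⋖ v ∨ y2 ⋖ v
  top : ∀ w, z ≤ w → w ≤ t
  low : ∀ w ≤ t, lev w ≤ i + 2 → z < w

/-- the elements which are below `t` only -/
noncomputable def At (t : P) : Finset P := by
  classical exact univ.filter (fun y => ∀ w, y ≤ w → w ≤ t)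

lemma mem_At {t y : P} : y ∈ At t ↔ ∀ w, y ≤ w → w ≤ t := by
  classical
  unfold At
  simp

/-- the raised excess function -/
noncomputable def E (i : ℕ) (h : P → ℕ) (z : P) (d : P → ℕ) (w : P) : ℕ := ez i h z w + d w

section

variable {i : ℕ} {h : P → ℕ} {z x p q y0 y1 y2 t : P}

lemma rho_E (d : P → ℕ) (w : P) : rho i (E i h z d) w = rho i (ez i h z) w + d w := by
  unfold rho E
  push_cast
  ring

lemma E_not (d : P → ℕ) {w : P} (hw : ¬ z ≤ w) : E i h z d w = d w := by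
  unfold E ez
  rw [if_neg hw, zero_add]

namespace SV

variable (S : SV i h z x p q y0 y1 y2 t)

include S

lemma symm : SV i h z x q p y2 y1 y0 t where
  gr := S.gr
  lz := S.lz
  h5 := S.h5
  zx := S.zx
  xp := fun w => (S.xp w).trans or_comm
  pq := S.pq.symm
  py := S.qy
  qy := S.py
  y01 := S.y21
  y21 := S.y01
  y02 := S.y02.symm
  y1c := fun v hv => (S.y1c v hv).symm
  top := S.top
  low := S.low

lemma cov_zx : z ⋖ x := (S.zx x).mpr rfl
lemma cov_xp : x ⋖ p := (S.xp p).mpr (Or.inl rfl)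
lemma cov_xq : x ⋖ q := (S.xp q).mpr (Or.inr rfl)
lemma cov_py0 : p ⋖ y0 := (S.py y0).mpr (Or.inl rfl)
lemma cov_py1 : p ⋖ y1 := (S.py y1).mpr (Or.inr rfl)
lemma cov_qy2 : q ⋖ y2 := (S.qy y2).mpr (Or.inl rfl)
lemma cov_qy1 : q ⋖ y1 := (S.qy y1).mpr (Or.inr rfl)

lemma lx : lev x = i + h z + 1 := by
  have := S.gr.lev_covBy S.cov_zx
  have := S.lz
  omega

lemma lp : lev p = i + h z := by
  have := S.gr.lev_covBy S.cov_xp
  have := S.lx
  omega

lemma lq : lev q = i + h z := S.symm.lp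

lemma ly0 : lev y0 + 1 = i + h z := by
  have := S.gr.lev_covBy S.cov_py0
  have := S.lp
  omega

lemma ly1 : lev y1 + 1 = i + h z := by
  have := S.gr.lev_covBy S.cov_py1
  have := S.lp
  omega

lemma ly2 : lev y2 + 1 = i + h z := S.symm.ly0

lemma above_z {w : P} (hw : z < w) : x ≤ w := by
  obtain ⟨v, h1, h2⟩ := exists_covBy_le hw
  rw [(S.zx v).mp h1] at h2
  exact h2

lemma above_x {w : P} (hw : x < w) : p ≤ w ∨ q ≤ w := by
  obtain ⟨v, h1, h2⟩ := exists_covBy_le hw
  rcases (S.xp v).mp h1 with h3 | h3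
  · rw [h3] at h2
    exact Or.inl h2
  · rw [h3] at h2
    exact Or.inr h2

lemma above_p {w : P} (hw : p < w) : y0 ≤ w ∨ y1 ≤ w := by
  obtain ⟨v, h1, h2⟩ := exists_covBy_le hw
  rcases (S.py v).mp h1 with h3 | h3
  · rw [h3] at h2
    exact Or.inl h2
  · rw [h3] at h2
    exact Or.inr h2

lemma above_q {w : P} (hw : q < w) : y2 ≤ w ∨ y1 ≤ w := S.symm.above_p hw

lemma zx_lt : z < x := S.cov_zx.1
lemma zp_lt : z < p := S.zx_lt.trans S.cov_xp.1
lemma zq_lt : z < q := S.zx_lt.trans S.cov_xq.1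
lemma zy0_lt : z < y0 := S.zp_lt.trans S.cov_py0.1
lemma zy1_lt : z < y1 := S.zp_lt.trans S.cov_py1.1
lemma zy2_lt : z < y2 := S.zq_lt.trans S.cov_qy2.1

/-- the elements above `z` -/
lemma cases {w : P} (hw : z ≤ w) : w = z ∨ w = x ∨ w = p ∨ w = q ∨ (z < w ∧ lev w < i + h z) := by
  rcases eq_or_lt_of_le hw with h1 | h1
  · exact Or.inl h1.symm
  right
  rcases eq_or_lt_of_le (S.above_z h1) with h2 | h2
  · exact Or.inl h2.symm
  right
  have key : ∀ v, lev v = i + h z → v ≤ w → w = v ∨ lev w < i + h z := by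
    intro v hv hvw
    rcases eq_or_lt_of_le hvw with h3 | h3
    · exact Or.inl h3.symm
    · right
      have := lev_strictAnti h3
      omega
  rcases S.above_x h2 with h3 | h3
  · rcases key p S.lp h3 with h4 | h4
    · exact Or.inl h4
    · exact Or.inr (Or.inr ⟨h1, h4⟩)
  · rcases key q S.lq h3 with h4 | h4
    · exact Or.inr (Or.inl h4)
    · exact Or.inr (Or.inr ⟨h1, h4⟩)

/-- the elements above `z` on the levels below `i + h` -/
lemma cases' {w : P} (hw : z < w) (hl : lev w < i + h z) : y0 ≤ w ∨ y1 ≤ w ∨ y2 ≤ w := by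
  have h1 := S.above_z hw
  have h2 : x < w := lt_of_le_of_ne h1 (by rintro rfl; have := S.lx; omega)
  rcases S.above_x h2 with h3 | h3
  · have h4 : p < w := lt_of_le_of_ne h3 (by rintro rfl; have := S.lp; omega)
    rcases S.above_p h4 with h5 | h5
    · exact Or.inl h5
    · exact Or.inr (Or.inl h5)
  · have h4 : q < w := lt_of_le_of_ne h3 (by rintro rfl; have := S.lq; omega)
    rcases S.above_q h4 with h5 | h5
    · exact Or.inr (Or.inr h5)
    · exact Or.inr (Or.inl h5)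

lemma cases1 {w : P} (hw : z < w) (hl : lev w + 1 = i + h z) : w = y0 ∨ w = y1 ∨ w = y2 := by
  have key : ∀ v, lev v + 1 = i + h z → v ≤ w → w = v := by
    intro v hv hvw
    rcases eq_or_lt_of_le hvw with h3 | h3
    · exact h3.symm
    · have := lev_strictAnti h3
      omega
  rcases S.cases' hw (by omega) with h1 | h1 | h1
  · exact Or.inl (key y0 S.ly0 h1)
  · exact Or.inr (Or.inl (key y1 S.ly1 h1))
  · exact Or.inr (Or.inr (key y2 S.ly2 h1))

lemma not_qy0 : ¬ q < y0 := by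
  intro h1
  have h2 : q ⋖ y0 := by
    refine ⟨h1, fun c hc1 hc2 => ?_⟩
    have h3 := lev_strictAnti hc1
    have h4 := lev_strictAnti hc2
    have := S.lq
    have := S.ly0
    omega
  rcases (S.qy y0).mp h2 with h3 | h3
  · exact S.y02 h3
  · exact S.y01 h3

lemma not_py2 : ¬ p < y2 := S.symm.not_qy0

lemma not_pq : ¬ p < q := by
  intro h1
  have := lev_strictAnti h1
  have := S.lp
  have := S.lq
  omega

lemma mem_At_of {w : P} (hw : z ≤ w) : w ∈ At t :=
  mem_At.mpr fun v hv => S.top v (hw.trans hv)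

lemma lev_At {w : P} (hw : w ∈ At t) (hz : ¬ z ≤ w) : i + 3 ≤ lev w := by
  by_contra hcon
  exact hz (S.low w (mem_At.mp hw w le_rfl) (by omega)).le

/-! ### the relative heights -/

variable (d : P → ℕ)

lemma r_le {w : P} (hw : z ≤ w) (hl : lev w ≤ i + h z) :
    rho i (E i h z d) w = (lev w : ℤ) - i + d w := by
  rw [rho_E, rho_ez_of_le hw hl]

lemma r_ge {w : P} (hw : z ≤ w) (hl : i + h z ≤ lev w) :
    rho i (E i h z d) w = (h z : ℤ) + d w := by
  rw [rho_E, rho_ez_of_ge hw hl]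

lemma r_not {w : P} (hw : ¬ z ≤ w) : rho i (E i h z d) w ≤ d w := by
  rw [rho_E, rho_ez_of_not hw]
  omega

lemma rz : rho i (E i h z d) z = (h z : ℤ) + d z := S.r_ge d le_rfl (by have := S.lz; omega)
lemma rx : rho i (E i h z d) x = (h z : ℤ) + d x := S.r_ge d S.zx_lt.le (by have := S.lx; omega)
lemma rp : rho i (E i h z d) p = (h z : ℤ) + d p := S.r_ge d S.zp_lt.le (by have := S.lp; omega)
lemma rq : rho i (E i h z d) q = (h z : ℤ) + d q := S.symm.rp d
lemma ry0 : rho i (E i h z d) y0 = (h z : ℤ) - 1 + d y0 := by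
  rw [S.r_le d S.zy0_lt.le (by have := S.ly0; omega)]
  have := S.ly0
  omega
lemma ry1 : rho i (E i h z d) y1 = (h z : ℤ) - 1 + d y1 := by
  rw [S.r_le d S.zy1_lt.le (by have := S.ly1; omega)]
  have := S.ly1
  omega
lemma ry2 : rho i (E i h z d) y2 = (h z : ℤ) - 1 + d y2 := S.symm.ry0 d

variable {d}

/-- a cell of `U` on a level below `i + h` which is not raised is forced in -/
lemma FI_U {w : P} (hw : z < w) (hl : lev w < i + h z) (h0 : d w = 0) :
    FI i (E i h z d) w := by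
  right
  obtain ⟨v, h1, h2, h3⟩ := S.gr z w hw
  refine ⟨v, h2, ?_⟩
  rw [S.r_le d hw.le hl.le, S.r_le d h1 (by omega), h0, h3]
  push_cast
  omega

lemma not_FA_U {w : P} (hw : z < w) (hl : lev w < i + h z)
    (h0 : ∀ v, z < v → lev v < lev w → d v = 0) : ¬ FA i (E i h z d) w := by
  rintro ⟨v, h1, h2⟩
  have h3 := lev_strictAnti h1
  rw [S.r_le d hw.le hl.le, S.r_le d (hw.trans h1).le (by omega), h0 v (hw.trans h1) h3] at h2
  omega

/-- a raised cell of `U` with a lower cover in `U` which is not raised is not admissible -/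
lemma bad_U {v v' : P} (hv' : z < v') (hvv : v' < v) (hl : lev v' = lev v + 1)
    (hl2 : lev v + 2 ≤ i + h z) (h0 : d v' = 0) (h1 : 1 ≤ d v) :
    FI i (E i h z d) v' ∧ FA i (E i h z d) v' := by
  refine ⟨S.FI_U hv' (by omega) h0, v, hvv, ?_⟩
  rw [S.r_le d hv'.le (by omega), S.r_le d (hv'.trans hvv).le (by omega), h0, hl]
  push_cast
  omega

lemma exists_lower {v : P} (hv : z < v) (hl2 : lev v + 2 ≤ i + h z) :
    ∃ v', z < v' ∧ v' < v ∧ lev v' = lev v + 1 := by
  obtain ⟨v', h1, h2, h3⟩ := S.gr z v hv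
  refine ⟨v', lt_of_le_of_ne h1 ?_, h2, h3⟩
  rintro rfl
  have := S.lz
  omega

/-- a lower cover which is different from `y1` -/
lemma exists_lower' {v : P} (hv : z < v) (hl2 : lev v + 2 ≤ i + h z) :
    ∃ v', z < v' ∧ v' < v ∧ lev v' = lev v + 1 ∧ v' ≠ y1 := by
  obtain ⟨v', h1, h2, h3⟩ := S.exists_lower hv hl2
  by_cases h4 : v' = y1
  · have h5 : y1 ⋖ v := by
      rw [← h4]
      refine ⟨h2, fun c hc1 hc2 => ?_⟩
      have h6 := lev_strictAnti hc1
      have h7 := lev_strictAnti hc2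
      omega
    have hl1 := S.ly1
    have hl0 := S.ly0
    have hl2 := S.ly2
    rw [h4] at h3
    rcases S.y1c v h5 with h6 | h6
    · exact ⟨y0, S.zy0_lt, h6.1, by omega, S.y01⟩
    · exact ⟨y2, S.zy2_lt, h6.1, by omega, S.y21⟩
  · exact ⟨v', h1, h2, h3, h4⟩

/-- criterion for not being forced in, near `z` -/
lemma not_FI {w : P} (hn : ∀ v, d v ≤ 2) (hw : z ≤ w) (hl : i + h z ≤ lev w + 1)
    (H : ∀ v, z ≤ v → v < w → rho i (E i h z d) v ≤ rho i (E i h z d) w) :
    ¬ FI i (E i h z d) w := by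
  have h5 := S.h5
  have h3 : (h z : ℤ) - 1 ≤ rho i (E i h z d) w := by
    by_cases h4 : i + h z ≤ lev w
    · rw [S.r_ge d hw h4]
      omega
    · rw [S.r_le d hw (by omega)]
      omega
  rintro (h1 | ⟨v, h1, h2⟩)
  · omega
  · by_cases hv : z ≤ v
    · exact absurd (H v hv h1) (not_le.mpr h2)
    · have h4 := S.r_not d hv
      have h6 := hn v
      omega

/-- the elements between `z` and `p` -/
lemma below_p {v : P} (hv : z ≤ v) (h1 : v < p) : v = z ∨ v = x := by
  have h2 := lev_strictAnti h1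
  have h3 := S.lp
  rcases S.cases hv with h4 | h4 | h4 | h4 | h4
  · exact Or.inl h4
  · exact Or.inr h4
  · rw [h4] at h1
    exact absurd h1 (lt_irrefl _)
  · rw [h4] at h1
    exact absurd h1 S.symm.not_pq
  · omega

lemma below_x {v : P} (hv : z ≤ v) (h1 : v < x) : v = z := by
  rcases eq_or_lt_of_le hv with h2 | h2
  · exact h2.symm
  · exact absurd (S.above_z h2) (not_le_of_gt h1)

lemma below_y0 {v : P} (hv : z ≤ v) (h1 : v < y0) : v = z ∨ v = x ∨ v = p := by
  have h2 := lev_strictAnti h1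
  have h3 := S.ly0
  rcases S.cases hv with h4 | h4 | h4 | h4 | h4
  · exact Or.inl h4
  · exact Or.inr (Or.inl h4)
  · exact Or.inr (Or.inr h4)
  · rw [h4] at h1
    exact absurd h1 S.not_qy0
  · omega

lemma below_y1 {v : P} (hv : z ≤ v) (h1 : v < y1) : v = z ∨ v = x ∨ v = p ∨ v = q := by
  have h2 := lev_strictAnti h1
  have h3 := S.ly1
  rcases S.cases hv with h4 | h4 | h4 | h4 | h4
  · exact Or.inl h4
  · exact Or.inr (Or.inl h4)
  · exact Or.inr (Or.inr (Or.inl h4))
  · exact Or.inr (Or.inr (Or.inr h4))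
  · omega

end SV

end

/-! ### bounds from the total -/

section Tot

variable {d : P → ℕ} (hn : ∑ w, d w ≤ 2)

include hn

lemma tot1 (a : P) : d a ≤ 2 :=
  (Finset.single_le_sum (fun _ _ => Nat.zero_le _) (mem_univ a)).trans hn

lemma tot2 {a b : P} (hab : a ≠ b) : d a + d b ≤ 2 := by
  have h1 : ∑ w ∈ ({a, b} : Finset P), d w ≤ ∑ w, d w :=
    Finset.sum_le_sum_of_subset (subset_univ _)
  rw [Finset.sum_pair hab] at h1
  omega

lemma tot3 {a b c : P} (hab : a ≠ b) (hac : a ≠ c) (hbc : b ≠ c) : d a + d b + d c ≤ 2 := by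
  have h1 : ∑ w ∈ ({a, b, c} : Finset P), d w ≤ ∑ w, d w :=
    Finset.sum_le_sum_of_subset (subset_univ _)
  rw [Finset.sum_insert (by simp [hab, hac]), Finset.sum_pair hbc] at h1
  omega

end Tot

section

variable {i : ℕ} {h : P → ℕ} {z x p q y0 y1 y2 t : P} {d : P → ℕ}

namespace SV

variable (S : SV i h z x p q y0 y1 y2 t)

include S

/-- `z` is not raised without `x` -/
lemma adm_z (hx : d x = 0) (hz : 1 ≤ d z) :
    FI i (E i h z d) x ∧ FA i (E i h z d) x := by
  constructor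
  · right
    refine ⟨z, S.zx_lt, ?_⟩
    rw [S.rx, S.rz, hx]
    push_cast
    omega
  · refine ⟨p, S.cov_xp.1, ?_⟩
    rw [S.rx, S.rp, hx]
    push_cast
    omega

/-- one of `p`, `y0` is a peak -/
lemma peak_side (hn : ∑ w, d w ≤ 2) (hx : d x = 0) (hz : d z = 0) (hy : d y1 = 0)
    (hA : ∀ w ∈ At t, ¬ (FI i (E i h z d) w ∧ FA i (E i h z d) w)) :
    (¬ FI i (E i h z d) p ∧ ¬ FA i (E i h z d) p) ∨
      (¬ FI i (E i h z d) y0 ∧ ¬ FA i (E i h z d) y0) := by
  have h5 := S.h5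
  have hFIp : ¬ FI i (E i h z d) p := by
    refine S.not_FI (tot1 hn) S.zp_lt.le (by have := S.lp; omega) ?_
    intro v hv h1
    rcases S.below_p hv h1 with rfl | rfl
    · rw [S.rz, S.rp, hz]; push_cast; omega
    · rw [S.rx, S.rp, hx]; push_cast; omega
  by_cases hFAp : FA i (E i h z d) p
  · right
    obtain ⟨w, hw, hr⟩ := hFAp
    have hzw : z < w := S.zp_lt.trans hw
    have hlw : lev w < i + h z := by
      have := lev_strictAnti hw
      have := S.lp
      omega
    rw [S.rp, S.r_le d hzw.le hlw.le] at hr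
    -- the level of `w`
    have hlw2 : lev w + 1 = i + h z := by
      by_contra hcon
      have h1 : lev w + 2 ≤ i + h z := by omega
      have h2 : 2 ≤ d w := by omega
      obtain ⟨v', h3, h4, h6⟩ := S.exists_lower hzw h1
      have h7 : d v' = 0 := by
        have := tot2 hn h4.ne
        omega
      exact hA v' (S.mem_At_of h3.le) (S.bad_U h3 h4 h6 h1 h7 (by omega))
    have hwy : w = y0 := by
      rcases S.cases1 hzw hlw2 with h1 | h1 | h1
      · exact h1
      · rw [h1, hy] at hr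
        have := S.ly1
        push_cast at hr
        omega
      · rw [h1] at hw
        exact absurd hw S.not_py2
    subst hwy
    have hr2 : 1 + d p ≤ d w := by omega
    constructor
    · refine S.not_FI (tot1 hn) hzw.le (by omega) ?_
      intro v hv h1
      rcases S.below_y0 hv h1 with rfl | rfl | rfl
      · rw [S.rz, S.ry0, hz]; push_cast; omega
      · rw [S.rx, S.ry0, hx]; push_cast; omega
      · rw [S.rp, S.ry0]; omega
    · rintro ⟨v, h1, h2⟩
      have h3 := lev_strictAnti h1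
      rw [S.ry0, S.r_le d (hzw.trans h1).le (by omega)] at h2
      have h4 := tot2 hn h1.ne
      omega
  · exact Or.inl ⟨hFIp, hFAp⟩

/-- without `x` and `y1` there are two peaks -/
lemma two_peaks (hn : ∑ w, d w ≤ 2) (hx : d x = 0) (hy : d y1 = 0) :
    (1 + X : ℤ[X]) ^ 2 ∣ tS (At t) i (E i h z d) := by
  classical
  refine dvd_tS fun hA => ?_
  have hz : d z = 0 := by
    by_contra hcon
    exact hA x (S.mem_At_of S.zx_lt.le) (S.adm_z hx (by omega))
  have h1 := S.peak_side hn hx hz hy hA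
  have h2 := S.symm.peak_side hn hx hz hy hA
  have ne1 : p ≠ y2 := by rintro rfl; have := S.lp; have := S.ly2; omega
  have ne2 : y0 ≠ q := by rintro rfl; have := S.lq; have := S.ly0; omega
  obtain ⟨a, ha, haA, hap⟩ : ∃ a, (a = p ∨ a = y0) ∧ a ∈ At t ∧
      (¬ FI i (E i h z d) a ∧ ¬ FA i (E i h z d) a) := by
    rcases h1 with h1 | h1
    · exact ⟨p, Or.inl rfl, S.mem_At_of S.zp_lt.le, h1⟩
    · exact ⟨y0, Or.inr rfl, S.mem_At_of S.zy0_lt.le, h1⟩
  obtain ⟨b, hb, hbA, hbp⟩ : ∃ b, (b = q ∨ b = y2) ∧ b ∈ At t ∧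
      (¬ FI i (E i h z d) b ∧ ¬ FA i (E i h z d) b) := by
    rcases h2 with h2 | h2
    · exact ⟨q, Or.inl rfl, S.mem_At_of S.zq_lt.le, h2⟩
    · exact ⟨y2, Or.inr rfl, S.mem_At_of S.zy2_lt.le, h2⟩
  have hab : a ≠ b := by
    rcases ha with rfl | rfl <;> rcases hb with rfl | rfl
    · exact S.pq
    · exact ne1
    · exact ne2
    · exact S.y02
  refine ⟨{a, b}, ?_, ?_, ?_⟩
  · intro w hw
    simp only [mem_insert, mem_singleton] at hw
    rcases hw with rfl | rfl
    · exact haA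
    · exact hbA
  · rw [Finset.card_pair hab]
  · intro w hw
    simp only [mem_insert, mem_singleton] at hw
    rcases hw with rfl | rfl
    · exact hap
    · exact hbp

/-- `x` and `y1` -/
lemma adm_xy (hn : ∑ w, d w ≤ 2) (hx : 1 ≤ d x) {y : P} (hy : 1 ≤ d y) (hpy : p ⋖ y) :
    FI i (E i h z d) p ∧ FA i (E i h z d) p := by
  have hxp : x ≠ p := S.cov_xp.1.ne
  have hxy : x ≠ y := (S.cov_xp.1.trans hpy.1).ne
  have hdp : d p = 0 := by
    have := tot3 hn hxp hxy hpy.1.ne
    omega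
  constructor
  · right
    refine ⟨x, S.cov_xp.1, ?_⟩
    rw [S.rp, S.rx, hdp]
    push_cast
    omega
  · refine ⟨y, hpy.1, ?_⟩
    have h1 := S.gr.lev_covBy hpy
    have h2 := S.lp
    rw [S.rp, S.r_le d (S.zp_lt.trans hpy.1).le (by omega), hdp]
    push_cast
    omega

end SV

end

end Pool.Agent.GaussPoset.Sv
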