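import Pool.Agent.W_448sv_h97.SvB

/-!
# Second variation lemma (MP_448cb3_co, G2, S7), file SvC: the terms with one peak (helper97)
-/

namespace Pool.Agent.GaussPoset.Sv

set_option linter.unusedSectionVars false

open Polynomial Finset

universe u

variable {P : Type u} [Fintype P] [PartialOrder P] [DecidableEq P]

/-- raised elements which are not above `z` have all their upper elements above `z` -/
def Gd (z : P) (d : P → ℕ) : Prop := ∀ b w, 1 ≤ d b → ¬ z ≤ b → b < w → z ≤ w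

/-- the elements above `z` on the levels below `i + h` -/
noncomputable def EU (i : ℕ) (h : P → ℕ) (z : P) : Finset P := by
  classical exact univ.filter (fun w => z < w ∧ lev w < i + h z)

section

variable {i : ℕ} {h : P → ℕ} {z x p q y0 y1 y2 t : P} {d : P → ℕ}

lemma mem_EU {w : P} : w ∈ EU i h z ↔ z < w ∧ lev w < i + h z := by
  classical
  unfold EU
  simp

namespace SV

variable (S : SV i h z x p q y0 y1 y2 t)

include S

lemma out (hn : ∑ w, d w ≤ 2) (good : Gd z d) {w : P} (hw : w ∈ At t) (hz : ¬ z ≤ w) :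
    FA i (E i h z d) w ∧ ¬ FI i (E i h z d) w := by
  have hl := S.lev_At hw hz
  have hr : rho i (E i h z d) w = d w := by
    rw [rho_of_lt (by omega), E_not d hz]
  constructor
  · by_cases h0 : d w = 0
    · exact FA_of_zero (by omega) (by rw [E_not d hz, h0])
    · obtain ⟨c, hc, hc2⟩ := exists_above' (x := w) (j := lev w - 1) (by omega)
      have hlt : w < c := lt_of_le_of_ne hc (by rintro rfl; omega)
      have hzc := good w c (by omega) hz hlt
      refine ⟨c, hlt, ?_⟩
      rw [hr]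
      have h1 := tot1 hn w
      have h5 := S.h5
      by_cases h2 : lev c ≤ i + h z
      · rw [S.r_le d hzc h2]
        omega
      · rw [S.r_ge d hzc (by omega)]
        omega
  · rintro (h1 | ⟨v, h1, h2⟩)
    · omega
    · have hv : ¬ z ≤ v := fun h3 => hz (h3.trans h1.le)
      have h3 := S.r_not d hv
      exact hz (good v w (by omega) hv h1)

lemma eval (hn : ∑ w, d w ≤ 2) (good : Gd z d) (hz : d z = 0)
    (hE : ∀ w, z < w → lev w < i + h z → w ≠ y1 → d w = 0) (FF PP : Finset P)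
    (hFP : Disjoint FF PP)
    (hF1 : ∀ w, z < w → lev w < i + h z → w ≠ y1 → w ∈ FF)
    (hF2 : ∀ w ∈ FF, z < w) (hP2 : ∀ w ∈ PP, z < w)
    (ex : (FI i (E i h z d) x ↔ x ∈ FF) ∧ (FA i (E i h z d) x ↔ x ∉ FF ∧ x ∉ PP))
    (ep : (FI i (E i h z d) p ↔ p ∈ FF) ∧ (FA i (E i h z d) p ↔ p ∉ FF ∧ p ∉ PP))
    (eq : (FI i (E i h z d) q ↔ q ∈ FF) ∧ (FA i (E i h z d) q ↔ q ∉ FF ∧ q ∉ PP))
    (ey : (FI i (E i h z d) y1 ↔ y1 ∈ FF) ∧ (FA i (E i h z d) y1 ↔ y1 ∉ FF ∧ y1 ∉ PP)) :
    tS (At t) i (E i h z d) = X ^ FF.card * (1 + X) ^ PP.card := by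
  have key : ∀ w ∈ At t, (FI i (E i h z d) w ↔ w ∈ FF) ∧
      (FA i (E i h z d) w ↔ w ∉ FF ∧ w ∉ PP) := by
    intro w hw
    by_cases hzw : z ≤ w
    · rcases S.cases hzw with rfl | rfl | rfl | rfl | ⟨h1, h2⟩
      · have h3 : w ∉ FF := fun h' => lt_irrefl _ (hF2 w h')
        have h4 : w ∉ PP := fun h' => lt_irrefl _ (hP2 w h')
        have h6 : ¬ FI i (E i h w d) w := S.not_FI (tot1 hn) le_rfl (by have := S.lz; omega)
          fun v hv1 hv2 => absurd (hv1.trans_lt hv2) (lt_irrefl _)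
        have h7 : FA i (E i h w d) w := by
          refine ⟨x, S.zx_lt, ?_⟩
          rw [S.rz, S.rx, hz]
          push_cast
          omega
        exact ⟨⟨fun h' => absurd h' h6, fun h' => absurd h' h3⟩, fun _ => ⟨h3, h4⟩, fun _ => h7⟩
      · exact ex
      · exact ep
      · exact eq
      · by_cases hy : w = y1
        · rw [hy]
          exact ey
        · have h3 := hF1 w h1 h2 hy
          have h4 := S.FI_U h1 h2 (hE w h1 h2 hy)
          have h6 : ¬ FA i (E i h z d) w := S.not_FA_U h1 h2 fun v hv hl => by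
            refine hE v hv (by omega) ?_
            rintro rfl
            have := S.ly1
            omega
          exact ⟨⟨fun _ => h3, fun _ => h4⟩, fun h' => absurd h' h6, fun h' => absurd h3 h'.1⟩
    · obtain ⟨h1, h2⟩ := S.out hn good hw hzw
      have h3 : w ∉ FF := fun h' => hzw (hF2 w h').le
      have h4 : w ∉ PP := fun h' => hzw (hP2 w h').le
      exact ⟨⟨fun h' => absurd h' h2, fun h' => absurd h' h3⟩, fun _ => ⟨h3, h4⟩, fun _ => h1⟩
  exact tS_of FF PP (fun w hw => S.mem_At_of (hF2 w hw).le) (fun w hw => S.mem_At_of (hP2 w hw).le)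
    (fun w hw => (key w hw).1) (fun w hw => (key w hw).2) hFP

lemma x_EU : x ∉ EU i h z := by
  rw [mem_EU]
  have := S.lx
  omega

lemma p_EU : p ∉ EU i h z := by
  rw [mem_EU]
  have := S.lp
  omega

lemma q_EU : q ∉ EU i h z := S.symm.p_EU

lemma y1_EU : y1 ∈ EU i h z := by
  rw [mem_EU]
  exact ⟨S.zy1_lt, by have := S.ly1; omega⟩

lemma ne_xp : x ≠ p := S.cov_xp.1.ne
lemma ne_xq : x ≠ q := S.cov_xq.1.ne
lemma ne_xy1 : x ≠ y1 := (S.cov_xp.1.trans S.cov_py1.1).ne
lemma ne_py1 : p ≠ y1 := S.cov_py1.1.ne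
lemma ne_qy1 : q ≠ y1 := S.cov_qy1.1.ne
lemma ne_py0 : p ≠ y0 := S.cov_py0.1.ne
lemma ne_xy0 : x ≠ y0 := (S.cov_xp.1.trans S.cov_py0.1).ne
lemma ne_zx : z ≠ x := S.zx_lt.ne
lemma ne_zp : z ≠ p := S.zp_lt.ne
lemma ne_zq : z ≠ q := S.zq_lt.ne
lemma ne_zy1 : z ≠ y1 := S.zy1_lt.ne

/-- only `x` is raised (in the part above `z`) -/
lemma val_x (hn : ∑ w, d w ≤ 2) (good : Gd z d) (hx : 1 ≤ d x)
    (h0 : ∀ w, z ≤ w → w ≠ x → d w = 0) :
    tS (At t) i (E i h z d) = X ^ ((EU i h z).card + 2) * (1 + X) := by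
  classical
  have hz := h0 z le_rfl S.ne_zx
  have hp := h0 p S.zp_lt.le S.ne_xp.symm
  have hq := h0 q S.zq_lt.le S.ne_xq.symm
  have hy := h0 y1 S.zy1_lt.le S.ne_xy1.symm
  have lp := S.lp
  have lq := S.lq
  have ly := S.ly1
  have hU : ∀ w, z < w → lev w < i + h z → d w = 0 := fun w hw hl =>
    h0 w hw.le (by rintro rfl; have := S.lx; omega)
  have hpF : p ∈ insert p (insert q (EU i h z)) := mem_insert_self _ _
  have hqF : q ∈ insert p (insert q (EU i h z)) := mem_insert_of_mem (mem_insert_self _ _)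
  have hxF : x ∉ insert p (insert q (EU i h z)) := by
    simp only [mem_insert, not_or]
    exact ⟨S.ne_xp, S.ne_xq, S.x_EU⟩
  have hyF : y1 ∈ insert p (insert q (EU i h z)) :=
    mem_insert_of_mem (mem_insert_of_mem S.y1_EU)
  have key : ∀ v, z < v → lev v = i + h z → d v = 0 → x < v →
      FI i (E i h z d) v ∧ ¬ FA i (E i h z d) v := by
    intro v hv hl hd hxv
    constructor
    · right
      refine ⟨x, hxv, ?_⟩
      rw [S.rx, S.r_ge d hv.le hl.ge, hd]
      push_cast
      omega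
    · rintro ⟨w, h1, h2⟩
      have h3 := lev_strictAnti h1
      rw [S.r_ge d hv.le hl.ge, S.r_le d (hv.trans h1).le (by omega), hd,
        hU w (hv.trans h1) (by omega)] at h2
      push_cast at h2
      omega
  have h1 := S.eval hn good hz (fun w h1 h2 _ => hU w h1 h2) (insert p (insert q (EU i h z))) {x}
    (by rw [Finset.disjoint_singleton_right]; exact hxF)
    (fun w h1 h2 _ => mem_insert_of_mem (mem_insert_of_mem (mem_EU.mpr ⟨h1, h2⟩))) ?_ ?_
    ?_ ?_ ?_ ?_
  · rw [h1, Finset.card_insert_of_notMem, Finset.card_insert_of_notMem S.q_EU,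
      Finset.card_singleton, pow_one]
    rw [mem_insert, not_or]
    exact ⟨S.pq, S.p_EU⟩
  · intro w hw
    simp only [mem_insert] at hw
    rcases hw with rfl | rfl | hw
    · exact S.zp_lt
    · exact S.zq_lt
    · exact (mem_EU.mp hw).1
  · intro w hw
    rw [mem_singleton.mp hw]
    exact S.zx_lt
  · have h2 : ¬ FI i (E i h z d) x := S.not_FI (tot1 hn) S.zx_lt.le (by have := S.lx; omega)
      fun v hv1 hv2 => by
        rw [S.below_x hv1 hv2, S.rz, S.rx, hz]
        push_cast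
        omega
    have h3 : ¬ FA i (E i h z d) x := by
      rintro ⟨w, h1, h2⟩
      have h3 := lev_strictAnti h1
      have h4 := S.lx
      rcases S.cases (S.zx_lt.trans h1).le with rfl | rfl | rfl | rfl | ⟨h5, h6⟩
      · exact absurd (h1.trans S.zx_lt) (lt_irrefl _)
      · exact lt_irrefl _ h1
      · rw [S.rx, S.rp, hp] at h2
        push_cast at h2
        omega
      · rw [S.rx, S.rq, hq] at h2
        push_cast at h2
        omega
      · rw [S.rx, S.r_le d h5.le h6.le, hU w h5 h6] at h2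
        push_cast at h2
        omega
    refine ⟨⟨fun h' => absurd h' h2, fun h' => absurd h' hxF⟩, fun h' => absurd h' h3,
      fun h' => absurd (mem_singleton_self x) h'.2⟩
  · obtain ⟨h2, h3⟩ := key p S.zp_lt lp hp S.cov_xp.1
    exact ⟨⟨fun _ => hpF, fun _ => h2⟩, fun h' => absurd h' h3, fun h' => absurd hpF h'.1⟩
  · obtain ⟨h2, h3⟩ := key q S.zq_lt lq hq S.cov_xq.1
    exact ⟨⟨fun _ => hqF, fun _ => h2⟩, fun h' => absurd h' h3, fun h' => absurd hqF h'.1⟩
  · have h2 := S.FI_U S.zy1_lt (by omega) hy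
    have h3 : ¬ FA i (E i h z d) y1 := S.not_FA_U S.zy1_lt (by omega) fun v hv hl =>
      hU v hv (by omega)
    exact ⟨⟨fun _ => hyF, fun _ => h2⟩, fun h' => absurd h' h3, fun h' => absurd hyF h'.1⟩

/-- only `y1` is raised (in the part above `z`) -/
lemma val_y (hn : ∑ w, d w ≤ 2) (good : Gd z d) (hy : 1 ≤ d y1)
    (h0 : ∀ w, z ≤ w → w ≠ y1 → d w = 0) :
    tS (At t) i (E i h z d) = X ^ ((EU i h z).erase y1).card * (1 + X) := by
  classical
  have hz := h0 z le_rfl S.ne_zy1
  have hx := h0 x S.zx_lt.le S.ne_xy1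
  have hp := h0 p S.zp_lt.le S.ne_py1
  have hq := h0 q S.zq_lt.le S.ne_qy1
  have lx := S.lx
  have lp := S.lp
  have lq := S.lq
  have ly := S.ly1
  have hU : ∀ w, z < w → lev w < i + h z → w ≠ y1 → d w = 0 := fun w hw _ h1 => h0 w hw.le h1
  have hxF : x ∉ (EU i h z).erase y1 := fun h' => S.x_EU (mem_of_mem_erase h')
  have hpF : p ∉ (EU i h z).erase y1 := fun h' => S.p_EU (mem_of_mem_erase h')
  have hqF : q ∉ (EU i h z).erase y1 := fun h' => S.q_EU (mem_of_mem_erase h')
  have hyF : y1 ∉ (EU i h z).erase y1 := fun h' => absurd rfl (ne_of_mem_erase h')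
  have hxP : x ∉ ({y1} : Finset P) := by rw [mem_singleton]; exact S.ne_xy1
  have hpP : p ∉ ({y1} : Finset P) := by rw [mem_singleton]; exact S.ne_py1
  have hqP : q ∉ ({y1} : Finset P) := by rw [mem_singleton]; exact S.ne_qy1
  have key : ∀ v, z < v → lev v = i + h z → d v = 0 → v < y1 →
      (∀ w, z ≤ w → w < v → w = z ∨ w = x) →
      ¬ FI i (E i h z d) v ∧ FA i (E i h z d) v := by
    intro v hv hl hd hxv hb
    constructor
    · refine S.not_FI (tot1 hn) hv.le (by omega) fun w hw1 hw2 => ?_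
      rw [S.r_ge d hv.le hl.ge, hd]
      rcases hb w hw1 hw2 with rfl | rfl
      · rw [S.rz, hz]
      · rw [S.rx, hx]
    · refine ⟨y1, hxv, ?_⟩
      rw [S.r_ge d hv.le hl.ge, S.ry1, hd]
      push_cast
      omega
  have h1 := S.eval hn good hz hU ((EU i h z).erase y1) {y1}
    (by rw [Finset.disjoint_singleton_right]; exact hyF)
    (fun w h1 h2 h3 => mem_erase.mpr ⟨h3, mem_EU.mpr ⟨h1, h2⟩⟩) ?_ ?_
    ?_ ?_ ?_ ?_
  · rw [h1, Finset.card_singleton, pow_one]
  · intro w hw
    exact (mem_EU.mp (mem_of_mem_erase hw)).1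
  · intro w hw
    rw [mem_singleton.mp hw]
    exact S.zy1_lt
  · have h2 : ¬ FI i (E i h z d) x := S.not_FI (tot1 hn) S.zx_lt.le (by omega)
      fun v hv1 hv2 => by rw [S.below_x hv1 hv2, S.rz, S.rx, hz, hx]
    have h3 : FA i (E i h z d) x := by
      refine ⟨p, S.cov_xp.1, ?_⟩
      rw [S.rx, S.rp, hx, hp]
    exact ⟨⟨fun h' => absurd h' h2, fun h' => absurd h' hxF⟩, fun _ => ⟨hxF, hxP⟩, fun _ => h3⟩
  · obtain ⟨h2, h3⟩ := key p S.zp_lt lp hp S.cov_py1.1 fun w h1 h2 => S.below_p h1 h2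
    exact ⟨⟨fun h' => absurd h' h2, fun h' => absurd h' hpF⟩, fun _ => ⟨hpF, hpP⟩, fun _ => h3⟩
  · obtain ⟨h2, h3⟩ := key q S.zq_lt lq hq S.cov_qy1.1 fun w h1 h2 => S.symm.below_p h1 h2
    exact ⟨⟨fun h' => absurd h' h2, fun h' => absurd h' hqF⟩, fun _ => ⟨hqF, hqP⟩, fun _ => h3⟩
  · have h2 : ¬ FI i (E i h z d) y1 := S.not_FI (tot1 hn) S.zy1_lt.le (by omega)
      fun v hv1 hv2 => by
        rcases S.below_y1 hv1 hv2 with rfl | rfl | rfl | rfl
        · rw [S.rz, S.ry1, hz]; push_cast; omega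
        · rw [S.rx, S.ry1, hx]; push_cast; omega
        · rw [S.rp, S.ry1, hp]; push_cast; omega
        · rw [S.rq, S.ry1, hq]; push_cast; omega
    have h3 : ¬ FA i (E i h z d) y1 := S.not_FA_U S.zy1_lt (by omega) fun v hv hl =>
      hU v hv (by omega) (by rintro rfl; omega)
    exact ⟨⟨fun h' => absurd h' h2, fun h' => absurd h' hyF⟩, fun h' => absurd h' h3,
      fun h' => absurd (mem_singleton_self y1) h'.2⟩

/-- `x` and `p` are raised -/
lemma val_xp (hn : ∑ w, d w ≤ 2) (hx : 1 ≤ d x) (hp : 1 ≤ d p) :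
    tS (At t) i (E i h z d) = X ^ ((EU i h z).card + 1) * (1 + X) := by
  classical
  have h12 := tot2 hn S.ne_xp
  have hx1 : d x = 1 := by omega
  have hp1 : d p = 1 := by omega
  have h0 : ∀ w, w ≠ x → w ≠ p → d w = 0 := fun w h1 h2 => by
    have := tot3 hn h1 h2 S.ne_xp
    omega
  have lx := S.lx
  have lp := S.lp
  have lq := S.lq
  have ly := S.ly1
  have good : Gd z d := by
    intro b w h1 h2 h3
    by_cases hb : b = x
    · rw [hb] at h2
      exact absurd S.zx_lt.le h2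
    · by_cases hb2 : b = p
      · rw [hb2] at h2
        exact absurd S.zp_lt.le h2
      · have := h0 b hb hb2
        omega
  have hz := h0 z S.ne_zx S.ne_zp
  have hq := h0 q S.ne_xq.symm S.pq.symm
  have hy := h0 y1 S.ne_xy1.symm S.ne_py1.symm
  have hU : ∀ w, z < w → lev w < i + h z → d w = 0 := fun w hw hl =>
    h0 w (by rintro rfl; omega) (by rintro rfl; omega)
  have hqF : q ∈ insert q (EU i h z) := mem_insert_self _ _
  have hxF : x ∉ insert q (EU i h z) := by
    simp only [mem_insert, not_or]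
    exact ⟨S.ne_xq, S.x_EU⟩
  have hpF : p ∉ insert q (EU i h z) := by
    simp only [mem_insert, not_or]
    exact ⟨S.pq, S.p_EU⟩
  have hyF : y1 ∈ insert q (EU i h z) := mem_insert_of_mem S.y1_EU
  have hxP : x ∉ ({p} : Finset P) := by rw [mem_singleton]; exact S.ne_xp
  have h1 := S.eval hn good hz (fun w h1 h2 _ => hU w h1 h2) (insert q (EU i h z)) {p}
    (by rw [Finset.disjoint_singleton_right]; exact hpF)
    (fun w h1 h2 _ => mem_insert_of_mem (mem_EU.mpr ⟨h1, h2⟩)) ?_ ?_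
    ?_ ?_ ?_ ?_
  · rw [h1, Finset.card_insert_of_notMem S.q_EU, Finset.card_singleton, pow_one]
  · intro w hw
    simp only [mem_insert] at hw
    rcases hw with rfl | hw
    · exact S.zq_lt
    · exact (mem_EU.mp hw).1
  · intro w hw
    rw [mem_singleton.mp hw]
    exact S.zp_lt
  · have h2 : ¬ FI i (E i h z d) x := S.not_FI (tot1 hn) S.zx_lt.le (by omega)
      fun v hv1 hv2 => by
        rw [S.below_x hv1 hv2, S.rz, S.rx, hz]
        push_cast
        omega
    have h3 : FA i (E i h z d) x := by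
      refine ⟨p, S.cov_xp.1, ?_⟩
      rw [S.rx, S.rp, hx1, hp1]
    exact ⟨⟨fun h' => absurd h' h2, fun h' => absurd h' hxF⟩, fun _ => ⟨hxF, hxP⟩, fun _ => h3⟩
  · have h2 : ¬ FI i (E i h z d) p := S.not_FI (tot1 hn) S.zp_lt.le (by omega)
      fun v hv1 hv2 => by
        rcases S.below_p hv1 hv2 with rfl | rfl
        · rw [S.rz, S.rp, hz]; push_cast; omega
        · rw [S.rx, S.rp, hx1, hp1]
    have h3 : ¬ FA i (E i h z d) p := by
      rintro ⟨w, h1, h2⟩
      have h3 := lev_strictAnti h1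
      rw [S.rp, S.r_le d (S.zp_lt.trans h1).le (by omega), hU w (S.zp_lt.trans h1) (by omega)] at h2
      push_cast at h2
      omega
    exact ⟨⟨fun h' => absurd h' h2, fun h' => absurd h' hpF⟩, fun h' => absurd h' h3,
      fun h' => absurd (mem_singleton_self p) h'.2⟩
  · have h2 : FI i (E i h z d) q := by
      right
      refine ⟨x, S.cov_xq.1, ?_⟩
      rw [S.rx, S.rq, hq]
      push_cast
      omega
    have h3 : ¬ FA i (E i h z d) q := by
      rintro ⟨w, h1, h2⟩
      have h3 := lev_strictAnti h1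
      rw [S.rq, S.r_le d (S.zq_lt.trans h1).le (by omega), hU w (S.zq_lt.trans h1) (by omega)] at h2
      push_cast at h2
      omega
    exact ⟨⟨fun _ => hqF, fun _ => h2⟩, fun h' => absurd h' h3, fun h' => absurd hqF h'.1⟩
  · have h2 := S.FI_U S.zy1_lt (by omega) hy
    have h3 : ¬ FA i (E i h z d) y1 := S.not_FA_U S.zy1_lt (by omega) fun v hv hl =>
      hU v hv (by omega)
    exact ⟨⟨fun _ => hyF, fun _ => h2⟩, fun h' => absurd h' h3, fun h' => absurd hyF h'.1⟩

/-- `y1` and `p` are raised -/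
lemma val_yp (hn : ∑ w, d w ≤ 2) (hy : 1 ≤ d y1) (hp : 1 ≤ d p) :
    tS (At t) i (E i h z d) = X ^ (EU i h z).card * (1 + X) := by
  classical
  have h12 := tot2 hn S.ne_py1
  have hy1 : d y1 = 1 := by omega
  have hp1 : d p = 1 := by omega
  have h0 : ∀ w, w ≠ y1 → w ≠ p → d w = 0 := fun w h1 h2 => by
    have := tot3 hn h1 h2 S.ne_py1.symm
    omega
  have lx := S.lx
  have lp := S.lp
  have lq := S.lq
  have ly := S.ly1
  have good : Gd z d := by
    intro b w h1 h2 h3
    by_cases hb : b = y1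
    · rw [hb] at h2
      exact absurd S.zy1_lt.le h2
    · by_cases hb2 : b = p
      · rw [hb2] at h2
        exact absurd S.zp_lt.le h2
      · have := h0 b hb hb2
        omega
  have hz := h0 z S.ne_zy1 S.ne_zp
  have hx := h0 x S.ne_xy1 S.ne_xp
  have hq := h0 q S.ne_qy1 S.pq.symm
  have hU : ∀ w, z < w → lev w < i + h z → w ≠ y1 → d w = 0 := fun w hw hl h1 =>
    h0 w h1 (by rintro rfl; omega)
  have hxF : x ∉ EU i h z := S.x_EU
  have hpF : p ∉ EU i h z := S.p_EU
  have hqF : q ∉ EU i h z := S.q_EU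
  have hyF : y1 ∈ EU i h z := S.y1_EU
  have hxP : x ∉ ({p} : Finset P) := by rw [mem_singleton]; exact S.ne_xp
  have hqP : q ∉ ({p} : Finset P) := by rw [mem_singleton]; exact S.pq.symm
  have h1 := S.eval hn good hz hU (EU i h z) {p}
    (by rw [Finset.disjoint_singleton_right]; exact hpF)
    (fun w h1 h2 _ => mem_EU.mpr ⟨h1, h2⟩) ?_ ?_
    ?_ ?_ ?_ ?_
  · rw [h1, Finset.card_singleton, pow_one]
  · intro w hw
    exact (mem_EU.mp hw).1
  · intro w hw
    rw [mem_singleton.mp hw]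
    exact S.zp_lt
  · have h2 : ¬ FI i (E i h z d) x := S.not_FI (tot1 hn) S.zx_lt.le (by omega)
      fun v hv1 hv2 => by rw [S.below_x hv1 hv2, S.rz, S.rx, hz, hx]
    have h3 : FA i (E i h z d) x := by
      refine ⟨p, S.cov_xp.1, ?_⟩
      rw [S.rx, S.rp, hx]
      push_cast
      omega
    exact ⟨⟨fun h' => absurd h' h2, fun h' => absurd h' hxF⟩, fun _ => ⟨hxF, hxP⟩, fun _ => h3⟩
  · have h2 : ¬ FI i (E i h z d) p := S.not_FI (tot1 hn) S.zp_lt.le (by omega)
      fun v hv1 hv2 => by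
        rcases S.below_p hv1 hv2 with rfl | rfl
        · rw [S.rz, S.rp, hz]; push_cast; omega
        · rw [S.rx, S.rp, hx]; push_cast; omega
    have h3 : ¬ FA i (E i h z d) p := by
      rintro ⟨w, h1, h2⟩
      have h3 := lev_strictAnti h1
      rw [S.rp, S.r_le d (S.zp_lt.trans h1).le (by omega)] at h2
      by_cases hw : w = y1
      · rw [hw, hy1, hp1] at h2
        push_cast at h2
        omega
      · rw [hU w (S.zp_lt.trans h1) (by omega) hw] at h2
        push_cast at h2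
        omega
    exact ⟨⟨fun h' => absurd h' h2, fun h' => absurd h' hpF⟩, fun h' => absurd h' h3,
      fun h' => absurd (mem_singleton_self p) h'.2⟩
  · have h2 : ¬ FI i (E i h z d) q := S.not_FI (tot1 hn) S.zq_lt.le (by omega)
      fun v hv1 hv2 => by
        rcases S.symm.below_p hv1 hv2 with rfl | rfl
        · rw [S.rz, S.rq, hz, hq]
        · rw [S.rx, S.rq, hx, hq]
    have h3 : FA i (E i h z d) q := by
      refine ⟨y1, S.cov_qy1.1, ?_⟩
      rw [S.rq, S.ry1, hq, hy1]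
      push_cast
      omega
    exact ⟨⟨fun h' => absurd h' h2, fun h' => absurd h' hqF⟩, fun _ => ⟨hqF, hqP⟩, fun _ => h3⟩
  · have h2 : FI i (E i h z d) y1 := by
      right
      refine ⟨p, S.cov_py1.1, ?_⟩
      rw [S.rp, S.ry1, hy1, hp1]
      push_cast
      omega
    have h3 : ¬ FA i (E i h z d) y1 := S.not_FA_U S.zy1_lt (by omega) fun v hv hl =>
      hU v hv (by omega) (by rintro rfl; omega)
    exact ⟨⟨fun _ => hyF, fun _ => h2⟩, fun h' => absurd h' h3, fun h' => absurd hyF h'.1⟩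

end SV

end

end Pool.Agent.GaussPoset.Sv
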