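import Pool.Agent.W_448sv_h97.SvC

/-!
# Second variation lemma (MP_448cb3_co, G2, S7), file SvD: the sums on the part below `t` (helper97)
-/

namespace Pool.Agent.GaussPoset.Sv

set_option linter.unusedSectionVars false

open Polynomial Finset

universe u

variable {P : Type u} [Fintype P] [PartialOrder P] [DecidableEq P]

/-- exchange the values at `x` and `y` -/
def sw (x y : P) (d : P → ℕ) : P → ℕ := fun w => d (Equiv.swap x y w)

lemma sw_left (x y : P) (d : P → ℕ) : sw x y d x = d y := by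
  unfold sw
  rw [Equiv.swap_apply_left]

lemma sw_right (x y : P) (d : P → ℕ) : sw x y d y = d x := by
  unfold sw
  rw [Equiv.swap_apply_right]

lemma sw_of {x y w : P} (d : P → ℕ) (h1 : w ≠ x) (h2 : w ≠ y) : sw x y d w = d w := by
  unfold sw
  rw [Equiv.swap_apply_of_ne_of_ne h1 h2]

lemma sw_sw (x y : P) (d : P → ℕ) : sw x y (sw x y d) = d := by
  funext w
  unfold sw
  rw [Equiv.swap_apply_self]

lemma sum_sw (x y : P) (d : P → ℕ) : ∑ w, sw x y d w = ∑ w, d w :=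
  Equiv.sum_comp (Equiv.swap x y) d

lemma mem_piAntidiag' {A : Finset P} {n : ℕ} {d : P → ℕ} :
    d ∈ A.piAntidiag n ↔ ∑ w, d w = n ∧ ∀ w, d w ≠ 0 → w ∈ A := by
  rw [mem_piAntidiag]
  constructor
  · rintro ⟨h1, h2⟩
    refine ⟨?_, h2⟩
    rw [← h1]
    symm
    refine Finset.sum_subset (subset_univ A) fun w _ hw => ?_
    by_contra hc
    exact hw (h2 w hc)
  · rintro ⟨h1, h2⟩
    refine ⟨?_, h2⟩
    rw [← h1]
    refine Finset.sum_subset (subset_univ A) fun w _ hw => ?_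
    by_contra hc
    exact hw (h2 w hc)

lemma sw_mem {A : Finset P} {n : ℕ} {d : P → ℕ} {x y : P} (hx : x ∈ A) (hy : y ∈ A)
    (hd : d ∈ A.piAntidiag n) : sw x y d ∈ A.piAntidiag n := by
  rw [mem_piAntidiag'] at hd ⊢
  refine ⟨by rw [sum_sw]; exact hd.1, fun w hw => ?_⟩
  by_cases h1 : w = x
  · rw [h1]; exact hx
  · by_cases h2 : w = y
    · rw [h2]; exact hy
    · rw [sw_of d h1 h2] at hw
      exact hd.2 w hw

/-- `x` and `z` are raised -/
def PA (x z : P) (d : P → ℕ) : Prop := 1 ≤ d x ∧ 1 ≤ d z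

/-- `x` is raised, `y` and `z` are not -/
def PB (x y z : P) (d : P → ℕ) : Prop := 1 ≤ d x ∧ d y = 0 ∧ d z = 0

open Classical in
lemma sum_four {α : Type*} (s : Finset α) (f : α → ℤ[X]) (A B B' : α → Prop)
    (h1 : ∀ d, A d → ¬ B d) (h2 : ∀ d, A d → ¬ B' d) (h3 : ∀ d, B d → ¬ B' d) :
    ∑ d ∈ s, f d = ∑ d ∈ s.filter A, f d + ∑ d ∈ s.filter B, f d +
      ∑ d ∈ s.filter B', f d + ∑ d ∈ s.filter (fun d => ¬ A d ∧ ¬ B d ∧ ¬ B' d), f d := by
  rw [Finset.sum_filter, Finset.sum_filter, Finset.sum_filter, Finset.sum_filter,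
    ← Finset.sum_add_distrib, ← Finset.sum_add_distrib, ← Finset.sum_add_distrib]
  refine Finset.sum_congr rfl fun d _ => ?_
  by_cases hA : A d
  · have hB := h1 d hA
    have hB' := h2 d hA
    simp [hA, hB, hB']
  · by_cases hB : B d
    · have hB' := h3 d hB
      simp [hA, hB, hB']
    · by_cases hB' : B' d
      · simp [hA, hB, hB']
      · simp [hA, hB, hB']

lemma poly1 (f : ℕ) : (1 + X : ℤ[X]) ^ 2 ∣ X ^ (f + 1) * (1 + X) + X ^ f * (1 + X) :=
  ⟨X ^ f, by ring⟩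

lemma poly2 (f : ℕ) : (1 + X : ℤ[X]) ^ 2 ∣ X ^ (f + 1 + 2) * (1 + X) + X ^ f * (1 + X) :=
  ⟨X ^ f * (1 - X + X ^ 2), by ring⟩

section

variable {i : ℕ} {h : P → ℕ} {z x p q y0 y1 y2 t : P} {d : P → ℕ}

lemma At_up {a b : P} (ha : a ∈ At t) (hab : a ≤ b) : b ∈ At t :=
  mem_At.mpr fun w hw => mem_At.mp ha w (hab.trans hw)

namespace SV

variable (S : SV i h z x p q y0 y1 y2 t)

include S

/-- `y0` and `y1` are raised: two peaks -/
lemma two_peaks_y0 (hn : ∑ w, d w ≤ 2) (h0 : 1 ≤ d y0) (h1 : 1 ≤ d y1) :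
    (1 + X : ℤ[X]) ^ 2 ∣ tS (At t) i (E i h z d) := by
  classical
  refine dvd_tS fun _ => ⟨{y0, y1}, ?_, ?_, ?_⟩
  · intro w hw
    simp only [mem_insert, mem_singleton] at hw
    rcases hw with rfl | rfl
    · exact S.mem_At_of S.zy0_lt.le
    · exact S.mem_At_of S.zy1_lt.le
  · rw [Finset.card_pair S.y01]
  · have h2 := tot2 hn S.y01
    have h3 : d y0 = 1 := by omega
    have h4 : d y1 = 1 := by omega
    have h5 : ∀ w, w ≠ y0 → w ≠ y1 → d w = 0 := fun w hw1 hw2 => by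
      have := tot3 hn hw1 hw2 S.y01
      omega
    have hz := h5 z S.zy0_lt.ne S.zy1_lt.ne
    have hx := h5 x S.ne_xy0 S.ne_xy1
    have hp := h5 p S.ne_py0 S.ne_py1
    have hq : d q = 0 := h5 q (by rintro rfl; have := S.lq; have := S.ly0; omega) S.ne_qy1
    have l0 := S.ly0
    have l1 := S.ly1
    intro w hw
    simp only [mem_insert, mem_singleton] at hw
    rcases hw with rfl | rfl
    · constructor
      · refine S.not_FI (tot1 hn) S.zy0_lt.le (by omega) fun v hv1 hv2 => ?_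
        rcases S.below_y0 hv1 hv2 with rfl | rfl | rfl
        · rw [S.rz, S.ry0, hz, h3]; push_cast; omega
        · rw [S.rx, S.ry0, hx, h3]; push_cast; omega
        · rw [S.rp, S.ry0, hp, h3]; push_cast; omega
      · refine S.not_FA_U S.zy0_lt (by omega) fun v hv hl => h5 v ?_ ?_
        · rintro rfl; omega
        · rintro rfl; omega
    · constructor
      · refine S.not_FI (tot1 hn) S.zy1_lt.le (by omega) fun v hv1 hv2 => ?_
        rcases S.below_y1 hv1 hv2 with rfl | rfl | rfl | rfl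
        · rw [S.rz, S.ry1, hz, h4]; push_cast; omega
        · rw [S.rx, S.ry1, hx, h4]; push_cast; omega
        · rw [S.rp, S.ry1, hp, h4]; push_cast; omega
        · rw [S.rq, S.ry1, hq, h4]; push_cast; omega
      · refine S.not_FA_U S.zy1_lt (by omega) fun v hv hl => h5 v ?_ ?_
        · rintro rfl; omega
        · rintro rfl; omega

lemma pair_y0 (hn : ∑ w, d w ≤ 2) (hx : 1 ≤ d x) (h0 : 1 ≤ d y0) :
    (1 + X : ℤ[X]) ^ 2 ∣ tS (At t) i (E i h z d) + tS (At t) i (E i h z (sw x y1 d)) := by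
  have h1 := S.adm_xy hn hx h0 S.cov_py0
  rw [tS_zero (S.mem_At_of S.zp_lt.le) h1.1 h1.2, zero_add]
  refine S.two_peaks_y0 (by rw [sum_sw]; exact hn) ?_ ?_
  · rw [sw_of d S.ne_xy0.symm S.y01]
    exact h0
  · rw [sw_right]
    exact hx

lemma pair_p (hn : ∑ w, d w ≤ 2) (hx : 1 ≤ d x) (h0 : 1 ≤ d p) :
    (1 + X : ℤ[X]) ^ 2 ∣ tS (At t) i (E i h z d) + tS (At t) i (E i h z (sw x y1 d)) := by
  rw [S.val_xp hn hx h0, S.val_yp (d := sw x y1 d) (by rw [sum_sw]; exact hn) ?_ ?_]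
  · exact poly1 _
  · rw [sw_right]
    exact hx
  · rw [sw_of d S.ne_xp.symm S.ne_py1]
    exact h0

lemma pair (hn : ∑ w, d w ≤ 2) (hs : ∀ w, d w ≠ 0 → w ∈ At t) (hx : 1 ≤ d x) (hy : d y1 = 0)
    (hz : d z = 0) :
    (1 + X : ℤ[X]) ^ 2 ∣ tS (At t) i (E i h z d) + tS (At t) i (E i h z (sw x y1 d)) := by
  classical
  have hn' : ∑ w, sw x y1 d w ≤ 2 := by rw [sum_sw]; exact hn
  by_cases c1 : ∃ v, z < v ∧ lev v + 2 ≤ i + h z ∧ 1 ≤ d v
  · obtain ⟨v, hv, hl, hdv⟩ := c1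
    obtain ⟨v', h1, h2, h3, h4⟩ := S.exists_lower' hv hl
    have hl1 := S.ly1
    have hlx := S.lx
    have hvx : v ≠ x := by rintro rfl; omega
    have hv'x : v' ≠ x := by rintro rfl; omega
    have hvy : v ≠ y1 := by rintro rfl; omega
    have h5 : d v' = 0 := by
      have := tot3 hn hv'x.symm hvx.symm h2.ne
      omega
    have h6 := S.bad_U h1 h2 h3 hl h5 hdv
    have h7 := S.bad_U (d := sw x y1 d) h1 h2 h3 hl (by rw [sw_of d hv'x h4]; exact h5)
      (by rw [sw_of d hvx hvy]; exact hdv)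
    rw [tS_zero (S.mem_At_of h1.le) h6.1 h6.2, tS_zero (S.mem_At_of h1.le) h7.1 h7.2, add_zero]
    exact dvd_zero _
  by_cases c2 : Gd z d
  swap
  · unfold Gd at c2
    push Not at c2
    obtain ⟨b, w, hb, hzb, hbw, hzw⟩ := c2
    have hbA : b ∈ At t := hs b (by omega)
    have hwA : w ∈ At t := At_up hbA hbw.le
    have hlb := S.lev_At hbA hzb
    have hlw := S.lev_At hwA hzw
    have hbx : b ≠ x := by rintro rfl; exact hzb S.zx_lt.le
    have hby : b ≠ y1 := by rintro rfl; exact hzb S.zy1_lt.le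
    have hwx : w ≠ x := by rintro rfl; exact hzw S.zx_lt.le
    have hwy : w ≠ y1 := by rintro rfl; exact hzw S.zy1_lt.le
    have hdw : d w = 0 := by
      have := tot3 hn hbx.symm hwx.symm hbw.ne
      omega
    have key : ∀ d' : P → ℕ, d' b = d b → d' w = 0 → tS (At t) i (E i h z d') = 0 := by
      intro d' h1 h2
      have h3 : E i h z d' w = 0 := by rw [E_not d' hzw, h2]
      refine tS_zero hwA (FI_of_raised (y := b) (by omega) h3 ?_ hbw) (FA_of_zero (by omega) h3)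
      rw [E_not d' hzb, h1]
      exact hb
    rw [key d rfl hdw, key (sw x y1 d) (sw_of d hbx hby) (by rw [sw_of d hwx hwy]; exact hdw),
      add_zero]
    exact dvd_zero _
  by_cases c3 : 1 ≤ d y0
  · exact S.pair_y0 hn hx c3
  by_cases c4 : 1 ≤ d y2
  · exact S.symm.pair_y0 hn hx c4
  by_cases c5 : 1 ≤ d p
  · exact S.pair_p hn hx c5
  by_cases c6 : 1 ≤ d q
  · exact S.symm.pair_p hn hx c6
  -- only `x` is raised above `z`
  push Not at c1
  have h0 : ∀ w, z ≤ w → w ≠ x → d w = 0 := by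
    intro w hw hwx
    rcases S.cases hw with rfl | rfl | rfl | rfl | ⟨h1, h2⟩
    · exact hz
    · exact absurd rfl hwx
    · omega
    · omega
    · by_cases h3 : lev w + 1 = i + h z
      · rcases S.cases1 h1 h3 with rfl | rfl | rfl
        · omega
        · exact hy
        · omega
      · have := c1 w h1 (by omega)
        omega
  have h0' : ∀ w, z ≤ w → w ≠ y1 → sw x y1 d w = 0 := by
    intro w hw hwy
    by_cases hwx : w = x
    · rw [hwx, sw_left]
      exact hy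
    · rw [sw_of d hwx hwy]
      exact h0 w hw hwx
  have hG' : Gd z (sw x y1 d) := by
    intro b w hb hzb hbw
    have hbx : b ≠ x := by rintro rfl; exact hzb S.zx_lt.le
    have hby : b ≠ y1 := by rintro rfl; exact hzb S.zy1_lt.le
    rw [sw_of d hbx hby] at hb
    exact c2 b w hb hzb hbw
  rw [S.val_x hn c2 hx h0, S.val_y hn' hG' (by rw [sw_right]; exact hx) h0']
  have h1 := Finset.card_erase_add_one S.y1_EU
  rw [← h1]
  exact poly2 _

open Classical in
/-- the sum on the part below `t` only, modulo `(1 + X) ^ 2` -/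
theorem TA_dvd {n : ℕ} (hn : n ≤ 2) :
    (1 + X : ℤ[X]) ^ 2 ∣ ∑ d ∈ (At t).piAntidiag n, tS (At t) i (E i h z d) -
      ∑ d ∈ ((At t).piAntidiag n).filter (PA x z), tS (At t) i (E i h z d) := by
  obtain ⟨s, hs⟩ : ∃ s, s = (At t).piAntidiag n := ⟨_, rfl⟩
  obtain ⟨f, hf⟩ : ∃ f : (P → ℕ) → ℤ[X], f = fun d => tS (At t) i (E i h z d) := ⟨_, rfl⟩
  obtain ⟨B, hB⟩ : ∃ B : (P → ℕ) → Prop, B = PB x y1 z := ⟨_, rfl⟩
  obtain ⟨B', hB'⟩ : ∃ B' : (P → ℕ) → Prop, B' = PB y1 x z := ⟨_, rfl⟩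
  obtain ⟨A, hA⟩ : ∃ A : (P → ℕ) → Prop, A = PA x z := ⟨_, rfl⟩
  have hf' : ∀ d, tS (At t) i (E i h z d) = f d := fun d => by rw [hf]
  have hAd : ∀ d, A d ↔ 1 ≤ d x ∧ 1 ≤ d z := fun d => by rw [hA]; rfl
  have hBd : ∀ d, B d ↔ 1 ≤ d x ∧ d y1 = 0 ∧ d z = 0 := fun d => by rw [hB]; rfl
  have hBd' : ∀ d, B' d ↔ 1 ≤ d y1 ∧ d x = 0 ∧ d z = 0 := fun d => by rw [hB']; rfl
  simp only [hf', ← hs, ← hA]
  have hxA : x ∈ At t := S.mem_At_of S.zx_lt.le
  have hyA : y1 ∈ At t := S.mem_At_of S.zy1_lt.le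
  have h1 : ∑ d ∈ s, f d = ∑ d ∈ s.filter A, f d + ∑ d ∈ s.filter B, f d +
      ∑ d ∈ s.filter B', f d + ∑ d ∈ s.filter (fun d => ¬ A d ∧ ¬ B d ∧ ¬ B' d), f d :=
    sum_four s f A B B' (fun d h1 h2 => by rw [hAd] at h1; rw [hBd] at h2; omega)
      (fun d h1 h2 => by rw [hAd] at h1; rw [hBd'] at h2; omega)
      (fun d h1 h2 => by rw [hBd] at h1; rw [hBd'] at h2; omega)
  have h2 : ∑ d ∈ s.filter B', f d = ∑ d ∈ s.filter B, f (sw x y1 d) := by
    symm
    refine Finset.sum_bij' (fun d _ => sw x y1 d) (fun d _ => sw x y1 d) ?_ ?_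
      (fun d _ => sw_sw x y1 d) (fun d _ => sw_sw x y1 d) (fun _ _ => rfl)
    · intro d hd
      rw [mem_filter, hs] at hd ⊢
      rw [hBd] at hd
      rw [hBd', sw_left, sw_right, sw_of d S.ne_zx S.ne_zy1]
      exact ⟨sw_mem hxA hyA hd.1, hd.2⟩
    · intro d hd
      rw [mem_filter, hs] at hd ⊢
      rw [hBd'] at hd
      rw [hBd, sw_left, sw_right, sw_of d S.ne_zx S.ne_zy1]
      exact ⟨sw_mem hxA hyA hd.1, hd.2⟩
  have h3 : ∑ d ∈ s, f d - ∑ d ∈ s.filter A, f d = ∑ d ∈ s.filter B, (f d + f (sw x y1 d)) +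
      ∑ d ∈ s.filter (fun d => ¬ A d ∧ ¬ B d ∧ ¬ B' d), f d := by
    rw [h1, h2, Finset.sum_add_distrib]
    ring
  rw [h3]
  refine dvd_add (Finset.dvd_sum fun d hd => ?_) (Finset.dvd_sum fun d hd => ?_)
  · obtain ⟨h4, h5⟩ := mem_filter.mp hd
    rw [hBd] at h5
    rw [hs] at h4
    obtain ⟨h8, h9⟩ := mem_piAntidiag'.mp h4
    rw [← hf', ← hf']
    exact S.pair (by omega) h9 h5.1 h5.2.1 h5.2.2
  · obtain ⟨h4, h5, h6, h7⟩ := mem_filter.mp hd
    rw [hAd] at h5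
    rw [hBd] at h6
    rw [hBd'] at h7
    rw [hs] at h4
    rw [← hf']
    obtain ⟨h8, h9⟩ := mem_piAntidiag'.mp h4
    have h10 : ∑ w, d w ≤ 2 := by omega
    by_cases hx : d x = 0
    · by_cases hy : d y1 = 0
      · exact S.two_peaks h10 hx hy
      · have hz : 1 ≤ d z := by
          by_contra hc
          omega
        have h11 := S.adm_z hx hz
        rw [tS_zero hxA h11.1 h11.2]
        exact dvd_zero _
    · have hy : 1 ≤ d y1 := by
        by_contra hc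
        omega
      have h11 := S.adm_xy h10 (by omega : 1 ≤ d x) hy S.cov_py1
      rw [tS_zero (S.mem_At_of S.zp_lt.le) h11.1 h11.2]
      exact dvd_zero _

end SV

end

end Pool.Agent.GaussPoset.Sv
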