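import Pool.Agent.W_448sv_h97.SvD

/-!
# Second variation lemma (MP_448cb3_co, G2, S7), file SvE: factorisation (helper97)
-/

namespace Pool.Agent.GaussPoset.Sv

set_option linter.unusedSectionVars false

open Polynomial Finset

universe u

variable {P : Type u} [Fintype P] [PartialOrder P] [DecidableEq P]

/-- the elements which are not below `t` -/
noncomputable def Bt (t : P) : Finset P := by
  classical exact univ.filter (fun y => ¬ y ≤ t)

/-- the joins: below `t` and below another element which is not below `t` -/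
noncomputable def Jt (t : P) : Finset P := by
  classical exact univ.filter (fun y => y ≤ t ∧ ∃ w, y ≤ w ∧ ¬ w ≤ t)

lemma mem_Bt {t y : P} : y ∈ Bt t ↔ ¬ y ≤ t := by
  classical
  unfold Bt
  simp

lemma mem_Jt {t y : P} : y ∈ Jt t ↔ y ≤ t ∧ ∃ w, y ≤ w ∧ ¬ w ≤ t := by
  classical
  unfold Jt
  simp

lemma disj_AB (t : P) : Disjoint (At t) (Bt t) := by
  rw [Finset.disjoint_left]
  intro y h1 h2
  exact (mem_Bt.mp h2) (mem_At.mp h1 y le_rfl)

lemma disj_ABJ (t : P) : Disjoint (At t ∪ Bt t) (Jt t) := by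
  rw [Finset.disjoint_left]
  intro y h1 h2
  obtain ⟨h3, w, h4, h5⟩ := mem_Jt.mp h2
  rcases mem_union.mp h1 with h | h
  · exact h5 (mem_At.mp h w h4)
  · exact (mem_Bt.mp h) h3

lemma union_ABJ (t : P) : At t ∪ Bt t ∪ Jt t = univ := by
  ext y
  simp only [mem_union, mem_univ, iff_true]
  by_cases h1 : y ≤ t
  · by_cases h2 : ∀ w, y ≤ w → w ≤ t
    · exact Or.inl (Or.inl (mem_At.mpr h2))
    · push Not at h2
      exact Or.inr (mem_Jt.mpr ⟨h1, h2⟩)
  · exact Or.inl (Or.inr (mem_Bt.mpr h1))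

lemma Bt_up {t a b : P} (ha : a ∈ Bt t) (hab : a ≤ b) : b ∈ Bt t :=
  mem_Bt.mpr fun h => (mem_Bt.mp ha) (hab.trans h)

lemma J_of_below_A {t v b : P} (hb : b ∈ At t) (hvb : v < b) (hv : v ∉ At t) : v ∈ Jt t := by
  have h1 : v ≤ t := hvb.le.trans (mem_At.mp hb b le_rfl)
  refine mem_Jt.mpr ⟨h1, ?_⟩
  by_contra hcon
  push Not at hcon
  exact hv (mem_At.mpr hcon)

lemma J_of_below_B {t v b : P} (hb : b ∈ Bt t) (hvb : v < b) (hv : v ∉ Bt t) : v ∈ Jt t := by
  have h1 : v ≤ t := by
    by_contra hcon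
    exact hv (mem_Bt.mpr hcon)
  exact mem_Jt.mpr ⟨h1, b, hvb.le, mem_Bt.mp hb⟩

lemma J_down {t v b : P} (hb : b ∈ Jt t) (hvb : v ≤ b) : v ∈ Jt t := by
  obtain ⟨h3, w, h4, h5⟩ := mem_Jt.mp hb
  exact mem_Jt.mpr ⟨hvb.trans h3, w, hvb.trans h4, h5⟩

section

variable {i : ℕ} {z t : P}

/-- the hypotheses on `z`, `t` which are used for the factorisation -/
structure Fac (i : ℕ) (z t : P) : Prop where
  gr : GradedBelow P
  top : ∀ w, z ≤ w → w ≤ t
  low : ∀ w ≤ t, lev w ≤ i + 2 → z < w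
  lz : i + 3 ≤ lev z

lemma SV.fac {h : P → ℕ} {x p q y0 y1 y2 : P} (S : SV i h z x p q y0 y1 y2 t) : Fac i z t :=
  ⟨S.gr, S.top, S.low, by have := S.lz; have := S.h5; omega⟩

namespace Fac

variable (S : Fac i z t)

include S

lemma lev_J {y : P} (hy : y ∈ Jt t) : i + 3 ≤ lev y := by
  obtain ⟨h3, w, h4, h5⟩ := mem_Jt.mp hy
  by_contra hcon
  have h1 := S.low y h3 (by omega)
  exact h5 (S.top w (h1.le.trans h4))

lemma not_J {y : P} (hy : y ∈ Jt t) : ¬ z ≤ y := by
  obtain ⟨h3, w, h4, h5⟩ := mem_Jt.mp hy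
  exact fun h1 => h5 (S.top w (h1.trans h4))

lemma not_B {y : P} (hy : y ∈ Bt t) : ¬ z ≤ y := fun h1 => mem_Bt.mp hy (S.top y h1)

variable {e0 : P → ℕ} (he0 : ∀ c, ¬ z ≤ c → e0 c = 0)

include he0

lemma fact {d : P → ℕ} (hd : ∀ y ∈ Jt t, d y = 0) :
    tS univ i (fun w => e0 w + d w) =
      tS (At t) i (fun w => e0 w + rs (At t) d w) * tS (Bt t) i (rs (Bt t) d) := by
  classical
  have hJ0 : ∀ y ∈ Jt t, e0 y + d y = 0 := fun y hy => by rw [he0 y (S.not_J hy), hd y hy]
  rw [← union_ABJ t, tS_union (disj_ABJ t), tS_union (disj_AB t)]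
  have h1 : tS (Jt t) i (fun w => e0 w + d w) = 1 := by
    have := tS_of (S := Jt t) (i := i) (e := fun w => e0 w + d w) ∅ ∅ (empty_subset _)
      (empty_subset _) ?_ ?_ (disjoint_empty_left _)
    · rw [this]
      simp
    · intro y hy
      have hl := S.lev_J hy
      constructor
      · rintro (h1 | ⟨v, h1, h2⟩)
        · rw [rho_of_lt (by omega), hJ0 y hy] at h1
          simp at h1
        · have hv := J_down hy h1.le
          have hlv := S.lev_J hv
          rw [rho_of_lt (by omega), rho_of_lt (by omega), hJ0 y hy, hJ0 v hv] at h2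
          simp at h2
      · intro h
        simp at h
    · intro y hy
      have hl := S.lev_J hy
      exact ⟨fun _ => ⟨by simp, by simp⟩, fun _ => FA_of_zero (by omega) (hJ0 y hy)⟩
  rw [h1, mul_one]
  congr 1
  · have heq : ∀ x ∈ At t, e0 x + d x = e0 x + rs (At t) d x := fun x hx => by rw [rs_of hx]
    refine tS_congr (fun x hx => FI_local heq ?_ hx) (fun x hx => FA_local ?_ heq hx)
    · rintro v hv ⟨b, hb, hvb⟩
      have hvJ := J_of_below_A hb hvb hv
      exact ⟨by have := S.lev_J hvJ; omega, hJ0 v hvJ, by rw [he0 v (S.not_J hvJ), rs_not hv]⟩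
    · exact fun a ha b hab => At_up ha hab
  · have heq : ∀ x ∈ Bt t, e0 x + d x = rs (Bt t) d x := fun x hx => by
      rw [rs_of hx, he0 x (S.not_B hx), zero_add]
    refine tS_congr (fun x hx => FI_local heq ?_ hx) (fun x hx => FA_local ?_ heq hx)
    · rintro v hv ⟨b, hb, hvb⟩
      have hvJ := J_of_below_B hb hvb hv
      exact ⟨by have := S.lev_J hvJ; omega, hJ0 v hvJ, rs_not hv⟩
    · exact fun a ha b hab => Bt_up ha hab

lemma vanish {d : P → ℕ} (hn : ∑ w, d w ≤ 2) {y : P} (hy : y ∈ Jt t) (hd : d y ≠ 0) :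
    tS univ i (fun w => e0 w + d w) = 0 := by
  classical
  by_contra hne
  have hA : ∀ c ∈ (univ : Finset P), ¬ (FI i (fun w => e0 w + d w) c ∧
      FA i (fun w => e0 w + d w) c) := by
    intro c hc hcon
    exact hne (tS_zero hc hcon.1 hcon.2)
  have hl := S.lev_J hy
  obtain ⟨h3, w0, h4, h5⟩ := mem_Jt.mp hy
  obtain ⟨w, hw1, hw2, hw3⟩ : ∃ w, y ≤ w ∧ ¬ w ≤ t ∧ lev w ≤ i + 1 := by
    by_cases h6 : lev w0 ≤ i + 1
    · exact ⟨w0, h4, h5, h6⟩
    · obtain ⟨w, h7, h8⟩ := exists_above' (x := w0) (j := i + 1) (by omega)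
      exact ⟨w, h4.trans h7, fun h => h5 (h7.trans h), h8.le⟩
  have hz : ∀ c, c ≤ w → ¬ z ≤ c := fun c hc h => hw2 (S.top w (h.trans hc))
  have h6 := three_raised S.gr (i := i) (S := univ) (e := fun w => e0 w + d w) (d := d) (x := y)
    (w := w) (mem_univ _) (fun c _ _ _ => mem_univ _) hl hw1 hw3
    (fun c _ h2 => by simp only [he0 c (hz c h2), zero_add]) (by omega) hA univ
    (fun c _ _ => mem_univ _)
  omega

/-- the factorisation -/
theorem fact_sum {n : ℕ} (hn : n ≤ 2) :
    ∑ d ∈ (univ : Finset P).piAntidiag n, tS univ i (fun w => e0 w + d w) =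
      ∑ r ∈ HasAntidiagonal.antidiagonal n,
        (∑ a ∈ (At t).piAntidiag r.1, tS (At t) i (fun w => e0 w + a w)) *
          (∑ b ∈ (Bt t).piAntidiag r.2, tS (Bt t) i b) := by
  classical
  rw [← conv (disj_AB t) (fun a => tS (At t) i (fun w => e0 w + a w)) (fun b => tS (Bt t) i b) n]
  symm
  have hsub : (At t ∪ Bt t).piAntidiag n ⊆ (univ : Finset P).piAntidiag n := by
    intro d hd
    rw [mem_piAntidiag'] at hd ⊢
    exact ⟨hd.1, fun _ _ => mem_univ _⟩
  have h1 : ∑ d ∈ (At t ∪ Bt t).piAntidiag n, tS univ i (fun w => e0 w + d w) =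
      ∑ d ∈ (univ : Finset P).piAntidiag n, tS univ i (fun w => e0 w + d w) := by
    refine Finset.sum_subset hsub fun d hd hd2 => ?_
    rw [mem_piAntidiag'] at hd
    obtain ⟨y, hy, hyJ⟩ : ∃ y, d y ≠ 0 ∧ y ∈ Jt t := by
      by_contra hcon
      push Not at hcon
      refine hd2 (mem_piAntidiag'.mpr ⟨hd.1, fun w hw => ?_⟩)
      have h2 : w ∈ At t ∪ Bt t ∪ Jt t := by rw [union_ABJ]; exact mem_univ _
      rcases mem_union.mp h2 with h3 | h3
      · exact h3
      · exact absurd h3 (hcon w hw)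
    exact S.vanish he0 (by omega) hyJ hy
  rw [← h1]
  refine Finset.sum_congr rfl fun d hd => ?_
  rw [mem_piAntidiag'] at hd
  rw [S.fact he0]
  intro y hy
  by_contra hc
  exact (Finset.disjoint_left.mp (disj_ABJ t)) (hd.2 y hc) hy

end Fac

end

/-! ### the window sum of an upper set -/

section Up

variable {i : ℕ}

open Classical in
/-- the window sum of the poset of an upper set -/
theorem Z_up {S : Finset P} (hup : ∀ x ∈ S, ∀ y, x ≤ y → y ∈ S)
    (hJ : ∀ x, x ∉ S → (∃ y ∈ S, x < y) → i ≤ lev x) (n : ℕ) :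
    Z {x : P // x ∈ S} i n = ∑ d ∈ S.piAntidiag n, tS S i d := by
  have hlev : ∀ x : {x : P // x ∈ S}, lev x = lev (x : P) :=
    fun x => lev_subtype (p := fun x => x ∈ S) (fun a b hab ha => hup a ha b hab) x
  have h1 : ∀ e : {x : P // x ∈ S} → ℕ, (if Adm i e then
      (X : ℤ[X]) ^ (nf i e) * (1 + X) ^ (Pk i e).card else 0) =
      tS S i (fun x => if h : x ∈ S then e ⟨x, h⟩ else 0) := by
    intro e
    set f : P → ℕ := fun x => if h : x ∈ S then e ⟨x, h⟩ else 0 with hf
    have hfe : ∀ x : {x : P // x ∈ S}, f x = e x := fun x => by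
      rw [hf]
      simp only [x.2, dif_pos]
    have hrho : ∀ x : {x : P // x ∈ S}, rho i e x = rho i f x := by
      intro x
      unfold rho
      rw [hfe, hlev]
    have hFI : ∀ x : {x : P // x ∈ S}, FI i e x ↔ FI i f x := by
      intro x
      constructor
      · rintro (h1 | ⟨v, h1, h2⟩)
        · left
          rw [← hrho]
          exact h1
        · right
          refine ⟨v, h1, ?_⟩
          rw [← hrho, ← hrho]
          exact h2
      · rintro (h1 | ⟨v, h1, h2⟩)
        · left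
          rw [hrho]
          exact h1
        · by_cases hv : v ∈ S
          · right
            refine ⟨⟨v, hv⟩, h1, ?_⟩
            rw [hrho, hrho]
            exact h2
          · left
            have h3 := hJ v hv ⟨x, x.2, h1⟩
            have h4 : rho i f v = 0 := by
              unfold rho
              rw [hf]
              simp only [hv, dif_neg, not_false_eq_true]
              rw [show i - lev v = 0 by omega]
              simp
            rw [hrho]
            rwa [h4] at h2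
    have hFA : ∀ x : {x : P // x ∈ S}, FA i e x ↔ FA i f x := by
      intro x
      constructor
      · rintro ⟨v, h1, h2⟩
        refine ⟨v, h1, ?_⟩
        rw [← hrho, ← hrho]
        exact h2
      · rintro ⟨v, h1, h2⟩
        refine ⟨⟨v, hup x x.2 v h1.le⟩, h1, ?_⟩
        rw [hrho, hrho]
        exact h2
    have hc1 : nf i e = (S.filter (fun x => FI i f x)).card := by
      unfold nf
      rw [← Finset.card_map (Function.Embedding.subtype _)]
      congr 1
      ext x
      simp only [mem_map, mem_filter, mem_univ, true_and, Function.Embedding.subtype_apply]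
      constructor
      · rintro ⟨y, hy, rfl⟩
        exact ⟨y.2, (hFI y).mp hy⟩
      · rintro ⟨hx, h2⟩
        exact ⟨⟨x, hx⟩, (hFI ⟨x, hx⟩).mpr h2, rfl⟩
    have hc2 : (Pk i e).card = (S.filter (fun x => ¬ FI i f x ∧ ¬ FA i f x)).card := by
      unfold Pk
      rw [← Finset.card_map (Function.Embedding.subtype _)]
      congr 1
      ext x
      simp only [mem_map, mem_filter, mem_univ, true_and, Function.Embedding.subtype_apply]
      constructor
      · rintro ⟨y, hy, rfl⟩
        exact ⟨y.2, fun h => hy.1 ((hFI y).mpr h), fun h => hy.2 ((hFA y).mpr h)⟩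
      · rintro ⟨hx, h2⟩
        exact ⟨⟨x, hx⟩, ⟨fun h => h2.1 ((hFI ⟨x, hx⟩).mp h), fun h => h2.2 ((hFA ⟨x, hx⟩).mp h)⟩,
          rfl⟩
    unfold tS
    rw [hc1, hc2]
    by_cases hA : Adm i e
    · rw [if_pos hA, if_pos]
      intro x hx h
      exact hA ⟨x, hx⟩ ⟨(hFI ⟨x, hx⟩).mpr h.1, (hFA ⟨x, hx⟩).mpr h.2⟩
    · rw [if_neg hA, if_neg]
      intro h
      exact hA fun x hx => h x x.2 ⟨(hFI x).mp hx.1, (hFA x).mp hx.2⟩
  unfold Z
  rw [Finset.sum_congr rfl fun e _ => h1 e]
  refine Finset.sum_bij' (fun e _ => fun x => if h : x ∈ S then e ⟨x, h⟩ else 0)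
    (fun d _ => fun x => d x) ?_ ?_ ?_ ?_ (fun _ _ => rfl)
  · intro e he
    rw [mem_piAntidiag] at he ⊢
    constructor
    · rw [← he.1, ← Finset.sum_attach S]
      refine Finset.sum_bij' (fun x _ => ⟨x.1, x.2⟩) (fun x _ => ⟨x.1, x.2⟩) (by simp) (by simp)
        (by simp) (by simp) ?_
      intro x _
      simp
    · intro x hx
      by_contra hxS
      simp only [hxS, dif_neg, not_false_eq_true, ne_eq, not_true_eq_false] at hx
  · intro d hd
    rw [mem_piAntidiag] at hd ⊢
    refine ⟨?_, fun _ _ => mem_univ _⟩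
    rw [← hd.1, ← Finset.sum_attach S]
    rfl
  · intro e _
    funext x
    simp
  · intro d hd
    rw [mem_piAntidiag] at hd
    funext x
    by_cases hx : x ∈ S
    · simp [hx]
    · simp only [hx, dif_neg, not_false_eq_true]
      by_contra hc
      exact hx (hd.2 x (Ne.symm hc))

end Up

end Pool.Agent.GaussPoset.Sv
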