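import Pool.Agent.W_448sv_h97.SvE

/-!
# Second variation lemma (MP_448cb3_co, G2, S7), file SvF: the theorem (helper97)
-/

namespace Pool.Agent.GaussPoset.Sv

set_option linter.unusedSectionVars false

open Polynomial Finset

universe u

variable {P : Type u} [Fintype P] [PartialOrder P] [DecidableEq P]

/-! ### algebra -/

lemma coprime_X (m n : ℕ) : IsCoprime ((X : ℤ[X]) ^ m) ((1 + X) ^ n) :=
  IsCoprime.pow (show IsCoprime (X : ℤ[X]) (1 + X) from ⟨-1, 1, by ring⟩)

lemma cancel {B m : ℕ} (hB : 2 ≤ B) {T : ℤ[X]}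
    (h : (1 + X : ℤ[X]) ^ B ∣ X ^ m * (1 + X) ^ 2 * T) : (1 + X : ℤ[X]) ^ (B - 2) ∣ T := by
  have hm : (1 + X : ℤ[X]).Monic := by
    have := monic_X_add_C (1 : ℤ)
    rwa [map_one, add_comm] at this
  have h1 : (1 + X : ℤ[X]) ^ B = (1 + X) ^ 2 * (1 + X) ^ (B - 2) := by
    rw [← pow_add]
    congr 1
    omega
  have h2 : X ^ m * (1 + X) ^ 2 * T = (1 + X) ^ 2 * (X ^ m * T) := by ring
  rw [h1, h2] at h
  have h3 := (mul_dvd_mul_iff_left (pow_ne_zero 2 hm.ne_zero)).mp h
  exact (coprime_X m (B - 2)).symm.dvd_of_dvd_mul_left h3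

lemma anti0 (f : ℕ × ℕ → ℤ[X]) : ∑ r ∈ HasAntidiagonal.antidiagonal 0, f r = f (0, 0) := by
  simp

lemma anti1 (f : ℕ × ℕ → ℤ[X]) : ∑ r ∈ HasAntidiagonal.antidiagonal 1, f r =
    f (0, 1) + f (1, 0) := by
  simp [Finset.Nat.antidiagonal_succ]

lemma anti2 (f : ℕ × ℕ → ℤ[X]) : ∑ r ∈ HasAntidiagonal.antidiagonal 2, f r =
    f (0, 2) + f (1, 1) + f (2, 0) := by
  simp [Finset.Nat.antidiagonal_succ]
  ring

lemma dvd_two_mul {B : ℕ} (hB : 2 ≤ B) {a b : ℤ[X]} (ha : (1 + X : ℤ[X]) ^ 2 ∣ a)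
    (hb : (1 + X : ℤ[X]) ^ (B - 2) ∣ b) : (1 + X : ℤ[X]) ^ B ∣ a * b := by
  have h1 : (1 + X : ℤ[X]) ^ B = (1 + X) ^ 2 * (1 + X) ^ (B - 2) := by
    rw [← pow_add]
    congr 1
    omega
  rw [h1]
  exact mul_dvd_mul ha hb

/-- the order of the second factor -/
lemma order_B {B m : ℕ} (hB : 2 ≤ B) {ZA TB ZP : ℕ → ℤ[X]}
    (hZ : ∀ n ≤ 2, ZP n = ∑ r ∈ HasAntidiagonal.antidiagonal n, ZA r.1 * TB r.2)
    (h0 : ZA 0 = X ^ m * (1 + X) ^ 2) (hA : ∀ a ≤ 2, (1 + X : ℤ[X]) ^ 2 ∣ ZA a)
    (hP : ∀ n ≤ 2, (1 + X : ℤ[X]) ^ B ∣ ZP n) : ∀ b ≤ 2, (1 + X : ℤ[X]) ^ (B - 2) ∣ TB b := by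
  have e0 : (1 + X : ℤ[X]) ^ (B - 2) ∣ TB 0 := by
    have h1 := hP 0 (by norm_num)
    rw [hZ 0 (by norm_num), anti0, h0] at h1
    exact cancel hB h1
  have e1 : (1 + X : ℤ[X]) ^ (B - 2) ∣ TB 1 := by
    have h1 := hP 1 (by norm_num)
    rw [hZ 1 (by norm_num), anti1] at h1
    have h2 := (dvd_add_left (dvd_two_mul hB (hA 1 (by norm_num)) e0)).mp h1
    rw [h0] at h2
    exact cancel hB h2
  have e2 : (1 + X : ℤ[X]) ^ (B - 2) ∣ TB 2 := by
    have h1 := hP 2 le_rfl
    rw [hZ 2 le_rfl, anti2] at h1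
    have h2 := (dvd_add_left (dvd_two_mul hB (hA 2 le_rfl) e0)).mp h1
    have h3 := (dvd_add_left (dvd_two_mul hB (hA 1 (by norm_num)) e1)).mp h2
    rw [h0] at h3
    exact cancel hB h3
  intro b hb
  interval_cases b
  · exact e0
  · exact e1
  · exact e2

/-! ### the ground part -/

lemma FI_zero {i : ℕ} {x : P} : FI i (fun _ => 0) x ↔ lev x < i := by
  unfold FI rho
  constructor
  · rintro (h1 | ⟨v, h1, h2⟩)
    · simp only [Nat.cast_zero] at h1
      omega
    · have := lev_strictAnti h1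
      simp only [Nat.cast_zero] at h2
      omega
  · intro h1
    left
    simp only [Nat.cast_zero]
    omega

lemma FA_zero {i : ℕ} {x : P} : FA i (fun _ => 0) x ↔ i < lev x := by
  constructor
  · rintro ⟨v, h1, h2⟩
    have := lev_strictAnti h1
    unfold rho at h2
    simp only [Nat.cast_zero] at h2
    omega
  · intro h1
    exact FA_of_zero h1 rfl

open Classical in
lemma tS_ground (S : Finset P) (i : ℕ) : tS S i (fun _ => 0) =
    X ^ (S.filter (fun x => lev x < i)).card * (1 + X) ^ (S.filter (fun x => lev x = i)).card := by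
  refine tS_of _ _ (Finset.filter_subset _ _) (Finset.filter_subset _ _) ?_ ?_ ?_
  · intro x hx
    rw [FI_zero, mem_filter]
    exact ⟨fun h => ⟨hx, h⟩, fun h => h.2⟩
  · intro x hx
    rw [FA_zero, mem_filter, mem_filter]
    constructor
    · intro h
      exact ⟨fun h' => by omega, fun h' => by omega⟩
    · rintro ⟨h1, h2⟩
      by_contra h3
      rcases Nat.lt_or_ge (lev x) i with h4 | h4
      · exact h1 ⟨hx, h4⟩
      · exact h2 ⟨hx, by omega⟩
  · rw [Finset.disjoint_left]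
    intro x h1 h2
    have := (mem_filter.mp h1).2
    have := (mem_filter.mp h2).2
    omega

section

variable {i : ℕ} {z t : P}

namespace Fac

variable (S : Fac i z t)

include S

/-- the window sum of the part below `t` only -/
theorem ZA_eq {N : Finset P} (hup : ∀ x ∈ N, ∀ y, x ≤ y → y ∈ N) (hNt : ∀ x ∈ N, x ≤ t)
    (hN2 : ∀ w ≤ t, lev w ≤ i + 2 → w ∈ N) {a : ℕ} (ha : a ≤ 2) :
    ∑ d ∈ (At t).piAntidiag a, tS (At t) i d = Z {x : P // x ∈ N} i a := by
  classical
  have hNA : N ⊆ At t := fun x hx => mem_At.mpr fun w hw => hNt w (hup x hx w hw)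
  have hl : ∀ x ∈ At t, x ∉ N → i + 3 ≤ lev x := by
    intro x hx hxN
    by_contra hcon
    exact hxN (hN2 x (mem_At.mp hx x le_rfl) (by omega))
  rw [Z_up hup (fun x hx ⟨y, hy, hxy⟩ => by
    by_contra hcon
    exact hx (hN2 x (hxy.le.trans (hNt y hy)) (by omega))) a]
  symm
  have hsub : N.piAntidiag a ⊆ (At t).piAntidiag a := by
    intro d hd
    rw [mem_piAntidiag'] at hd ⊢
    exact ⟨hd.1, fun w hw => hNA (hd.2 w hw)⟩
  have h1 : ∑ d ∈ N.piAntidiag a, tS (At t) i d = ∑ d ∈ (At t).piAntidiag a, tS (At t) i d := by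
    refine Finset.sum_subset hsub fun d hd hd2 => ?_
    rw [mem_piAntidiag'] at hd
    obtain ⟨y, hy, hyN⟩ : ∃ y, d y ≠ 0 ∧ y ∉ N := by
      by_contra hcon
      push Not at hcon
      exact hd2 (mem_piAntidiag'.mpr ⟨hd.1, fun w hw => hcon w hw⟩)
    by_contra hne
    have hA : ∀ c ∈ At t, ¬ (FI i d c ∧ FA i d c) := fun c hc hcon =>
      hne (tS_zero hc hcon.1 hcon.2)
    have hyA := hd.2 y hy
    have hly := hl y hyA hyN
    obtain ⟨w, hw1, hw2⟩ := exists_above' (x := y) (j := i + 1) (by omega)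
    have h6 := three_raised S.gr (i := i) (S := At t) (e := d) (d := d) (x := y) (w := w) hyA
      (fun c h1 _ _ => At_up hyA h1) hly hw1 hw2.le (fun c _ _ => rfl) (by omega) hA univ
      (fun c _ _ => mem_univ _)
    omega
  rw [← h1]
  refine Finset.sum_congr rfl fun d hd => ?_
  rw [mem_piAntidiag'] at hd
  have h2 : At t = N ∪ (At t \ N) := (Finset.union_sdiff_of_subset hNA).symm
  rw [h2, tS_union Finset.disjoint_sdiff]
  have h3 : tS (At t \ N) i d = 1 := by
    have := tS_of (S := At t \ N) (i := i) (e := d) ∅ ∅ (empty_subset _)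
      (empty_subset _) ?_ ?_ (disjoint_empty_left _)
    · rw [this]
      simp
    · intro y hy
      rw [mem_sdiff] at hy
      have hly := hl y hy.1 hy.2
      have h0 : d y = 0 := by
        by_contra hc
        exact hy.2 (hd.2 y hc)
      constructor
      · rintro (h4 | ⟨v, h4, h5⟩)
        · rw [rho_of_lt (by omega), h0] at h4
          simp at h4
        · have h6 : d v = 0 := by
            by_contra hc
            exact hy.2 (hup v (hd.2 v hc) y h4.le)
          have hlv := lev_strictAnti h4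
          rw [rho_of_lt (by omega), rho_of_lt (by omega), h0, h6] at h5
          simp at h5
      · intro h
        simp at h
    · intro y hy
      rw [mem_sdiff] at hy
      have hly := hl y hy.1 hy.2
      have h0 : d y = 0 := by
        by_contra hc
        exact hy.2 (hd.2 y hc)
      exact ⟨fun _ => ⟨by simp, by simp⟩, fun _ => FA_of_zero (by omega) h0⟩
  rw [h3, mul_one]

lemma ZA_zero : ∃ m : ℕ, ∑ d ∈ (At t).piAntidiag 0, tS (At t) i d =
    X ^ m * (1 + X) ^ (nab i z) := by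
  classical
  refine ⟨((At t).filter (fun x => lev x < i)).card, ?_⟩
  rw [Finset.piAntidiag_zero, Finset.sum_singleton]
  have h1 : tS (At t) i (0 : P → ℕ) = tS (At t) i (fun _ => 0) := rfl
  rw [h1, tS_ground]
  congr 2
  unfold nab
  congr 1
  ext w
  rw [mem_filter, mem_filter, mem_lv]
  constructor
  · rintro ⟨h2, h3⟩
    exact ⟨h3, (S.low w (mem_At.mp h2 w le_rfl) (by omega)).le⟩
  · rintro ⟨h2, h3⟩
    exact ⟨mem_At.mpr fun v hv => S.top v (h3.trans hv), h2⟩

end Fac

end

section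

variable {i : ℕ} {h : P → ℕ} {z x p q y0 y1 y2 t : P}

/-- the element `x + z` -/
def dxz (x z w : P) : ℕ := (if w = x then 1 else 0) + (if w = z then 1 else 0)

namespace SV

variable (S : SV i h z x p q y0 y1 y2 t)

include S

lemma sum_dxz : ∑ w, dxz x z w = 2 := by
  unfold dxz
  rw [Finset.sum_add_distrib, Finset.sum_ite_eq' univ x, Finset.sum_ite_eq' univ z]
  simp

open Classical in
lemma filter_PA : ((At t).piAntidiag 2).filter (PA x z) = {dxz x z} := by
  ext d
  rw [mem_filter, mem_singleton, mem_piAntidiag']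
  constructor
  · rintro ⟨⟨h1, -⟩, h2, h3⟩
    have h4 := tot2 h1.le S.ne_zx
    funext w
    unfold dxz
    by_cases hx : w = x
    · rw [hx, if_pos rfl, if_neg S.ne_zx.symm]
      omega
    · by_cases hz : w = z
      · rw [hz, if_neg S.ne_zx, if_pos rfl]
        omega
      · have := tot3 h1.le hx hz S.ne_zx.symm
        rw [if_neg hx, if_neg hz]
        omega
  · rintro rfl
    refine ⟨⟨S.sum_dxz, fun w hw => ?_⟩, ?_, ?_⟩
    · unfold dxz at hw
      by_cases hx : w = x
      · rw [hx]; exact S.mem_At_of S.zx_lt.le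
      · by_cases hz : w = z
        · rw [hz]; exact S.mem_At_of le_rfl
        · rw [if_neg hx, if_neg hz] at hw
          exact absurd rfl hw
    · unfold dxz
      rw [if_pos rfl]
      omega
    · unfold dxz
      rw [if_pos rfl]
      omega

open Classical in
lemma filter_PA_lt {n : ℕ} (hn : n < 2) : ((At t).piAntidiag n).filter (PA x z) = ∅ := by
  rw [Finset.filter_eq_empty_iff]
  rintro d hd ⟨h2, h3⟩
  rw [mem_piAntidiag'] at hd
  have h4 := tot2 (d := d) (by omega : ∑ w, d w ≤ 2) S.ne_zx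
  have h5 : ∑ w ∈ ({x, z} : Finset P), d w ≤ ∑ w, d w :=
    Finset.sum_le_sum_of_subset (subset_univ _)
  rw [Finset.sum_pair S.ne_zx.symm] at h5
  omega

/-- the label `h + 1` -/
lemma E_dxz : E i h z (dxz x z) = ez i (fun _ => h z + 1) z := by
  classical
  funext w
  show (if z ≤ w then min (h z) (lev w - i) else 0) +
    ((if w = x then 1 else 0) + (if w = z then 1 else 0)) =
      if z ≤ w then min (h z + 1) (lev w - i) else 0
  have lz := S.lz
  have lx := S.lx
  have lp := S.lp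
  have lq := S.lq
  by_cases hw : z ≤ w
  · rw [if_pos hw, if_pos hw]
    rcases S.cases hw with h1 | h1 | h1 | h1 | ⟨h1, h2⟩
    · subst h1
      rw [if_neg S.ne_zx, if_pos rfl, min_eq_left (by omega), min_eq_left (by omega)]
    · subst h1
      rw [if_pos rfl, if_neg S.ne_zx.symm, min_eq_left (by omega), min_eq_left (by omega)]
    · subst h1
      rw [if_neg S.ne_xp.symm, if_neg S.ne_zp.symm, min_eq_left (by omega), min_eq_right (by omega)]
      omega
    · subst h1
      rw [if_neg S.ne_xq.symm, if_neg S.ne_zq.symm, min_eq_left (by omega), min_eq_right (by omega)]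
      omega
    · have h3 : w ≠ x := by rintro rfl; omega
      rw [if_neg h3, if_neg h1.ne', min_eq_right (by omega), min_eq_right (by omega)]
      omega
  · have h3 : w ≠ x := by rintro rfl; exact hw S.zx_lt.le
    have h4 : w ≠ z := by rintro rfl; exact hw le_rfl
    rw [if_neg hw, if_neg hw, if_neg h3, if_neg h4]

lemma nab_top : nab (i + (h z + 1)) z = 1 := by
  classical
  unfold nab
  rw [Finset.card_eq_one]
  refine ⟨x, ?_⟩
  ext w
  rw [mem_filter, mem_lv, mem_singleton]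
  have lz := S.lz
  have lx := S.lx
  have lp := S.lp
  have lq := S.lq
  constructor
  · rintro ⟨h1, h2⟩
    rcases S.cases h2 with h3 | h3 | h3 | h3 | ⟨h3, h4⟩
    · rw [h3] at h1; omega
    · exact h3
    · rw [h3] at h1; omega
    · rw [h3] at h1; omega
    · omega
  · rintro rfl
    exact ⟨by omega, S.zx_lt.le⟩

/-- the second variation lemma, without the value of the last term -/
theorem second' (hnab : nab i z = 2) {N : Finset P} (hup : ∀ x ∈ N, ∀ y, x ≤ y → y ∈ N)
    (hNt : ∀ x ∈ N, x ≤ t) (hN2 : ∀ w ≤ t, lev w ≤ i + 2 → w ∈ N)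
    (hN : ∀ a ≤ 2, (1 + X : ℤ[X]) ^ 2 ∣ Z {x : P // x ∈ N} i a)
    (hZ : ∀ n ≤ 2, (1 + X : ℤ[X]) ^ (lv P i).card ∣ Z P i n) {n : ℕ} (hn : n ≤ 2) :
    (1 + X : ℤ[X]) ^ (lv P i).card ∣ TZ i h z (cst i h z + n) -
      if n = 2 then tS univ i (ez i (fun _ => h z + 1) z) else 0 := by
  classical
  have hB : 2 ≤ (lv P i).card := by
    have := nab_le z i
    omega
  obtain ⟨m, hm⟩ := S.fac.ZA_zero
  rw [hnab] at hm
  have hbase : ∀ n ≤ 2, ∑ d ∈ (univ : Finset P).piAntidiag n, tS univ i d =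
      ∑ r ∈ HasAntidiagonal.antidiagonal n,
        (∑ a ∈ (At t).piAntidiag r.1, tS (At t) i a) *
          (∑ b ∈ (Bt t).piAntidiag r.2, tS (Bt t) i b) := fun n hn => by
    have := S.fac.fact_sum (e0 := fun _ => 0) (fun _ _ => rfl) hn
    simpa only [zero_add] using this
  have hZP : ∀ n, Z P i n = ∑ e ∈ (univ : Finset P).piAntidiag n, tS univ i e := by
    intro n
    unfold Z
    exact Finset.sum_congr rfl fun e _ => (tS_univ i e).symm
  have hTB := order_B (B := (lv P i).card) (m := m) hB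
    (ZA := fun a => ∑ d ∈ (At t).piAntidiag a, tS (At t) i d)
    (TB := fun b => ∑ d ∈ (Bt t).piAntidiag b, tS (Bt t) i d)
    (ZP := fun n => Z P i n) (fun n hn => by
      rw [hZP]
      exact hbase n hn) hm
    (fun a ha => by
      show (1 + X : ℤ[X]) ^ 2 ∣ ∑ d ∈ (At t).piAntidiag a, tS (At t) i d
      rw [S.fac.ZA_eq hup hNt hN2 ha]
      exact hN a ha) hZ
  have hlz := S.lz
  rw [TZ_shift (by omega) (by omega),
    S.fac.fact_sum (e0 := ez i h z) (fun c hc => if_neg hc) hn]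
  have hTA : ∀ a ≤ 2, (1 + X : ℤ[X]) ^ 2 ∣
      ∑ d ∈ (At t).piAntidiag a, tS (At t) i (fun w => ez i h z w + d w) -
      ∑ d ∈ ((At t).piAntidiag a).filter (PA x z), tS (At t) i (E i h z d) :=
    fun a ha => S.TA_dvd ha
  have hTA0 := hTA 0 (by norm_num)
  have hTA1 := hTA 1 (by norm_num)
  have hTA2 := hTA 2 le_rfl
  rw [S.filter_PA_lt (by norm_num), Finset.sum_empty, sub_zero] at hTA0 hTA1
  rw [S.filter_PA, Finset.sum_singleton] at hTA2
  interval_cases n
  · rw [if_neg (by norm_num), sub_zero, anti0]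
    exact dvd_two_mul hB hTA0 (hTB 0 (by norm_num))
  · rw [if_neg (by norm_num), sub_zero, anti1]
    exact dvd_add (dvd_two_mul hB hTA0 (hTB 1 (by norm_num)))
      (dvd_two_mul hB hTA1 (hTB 0 (by norm_num)))
  · rw [if_pos rfl, anti2]
    have h1 : tS univ i (ez i (fun _ => h z + 1) z) = tS (At t) i (E i h z (dxz x z)) *
        ∑ d ∈ (Bt t).piAntidiag 0, tS (Bt t) i d := by
      rw [← S.E_dxz]
      have h2 := S.fac.fact (e0 := ez i h z) (fun c hc => if_neg hc) (d := dxz x z) (fun y hy => by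
        unfold dxz
        have h3 := S.fac.not_J hy
        rw [if_neg (by rintro rfl; exact h3 S.zx_lt.le), if_neg (by rintro rfl; exact h3 le_rfl)])
      have h4 : rs (At t) (dxz x z) = dxz x z := by
        funext w
        by_cases hw : w ∈ At t
        · exact rs_of hw
        · rw [rs_not hw]
          unfold dxz
          rw [if_neg (by rintro rfl; exact hw (S.mem_At_of S.zx_lt.le)),
            if_neg (by rintro rfl; exact hw (S.mem_At_of le_rfl))]
      have h5 : rs (Bt t) (dxz x z) = 0 := by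
        funext w
        by_cases hw : w ∈ Bt t
        · rw [rs_of hw]
          have h3 := S.fac.not_B hw
          unfold dxz
          rw [if_neg (by rintro rfl; exact h3 S.zx_lt.le), if_neg (by rintro rfl; exact h3 le_rfl)]
          rfl
        · rw [rs_not hw]
          rfl
      rw [h4, h5] at h2
      rw [Finset.piAntidiag_zero, Finset.sum_singleton]
      exact h2
    rw [h1]
    have h6 : ∀ a b c d e : ℤ[X], a + b + c * d - e * d = a + b + (c - e) * d := by
      intros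
      ring
    rw [h6]
    exact dvd_add (dvd_add (dvd_two_mul hB hTA0 (hTB 2 le_rfl))
      (dvd_two_mul hB hTA1 (hTB 1 (by norm_num)))) (dvd_two_mul hB hTA2 (hTB 0 (by norm_num)))

lemma last_term (hnab : nab i z = 2) : tS univ i (ez i (fun _ => h z + 1) z) =
    X ^ (below P i + nst i (fun _ => h z + 1) z) * (1 + X) ^ ((lv P i).card - 1) := by
  classical
  have hlz := S.lz
  have h1 : (fun _ : P => h z + 1) z ≤ lev z - i := by
    show h z + 1 ≤ lev z - i
    omega
  have h2 : 1 ≤ (fun _ : P => h z + 1) z := by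
    show 1 ≤ h z + 1
    omega
  rw [tS_univ, if_pos (adm_ez S.gr h1 h2), nf_ez S.gr h1 h2]
  have h3 : (Pk i (ez i (fun _ => h z + 1) z)).card + nab i z =
      (lv P i).card + nab (i + (h z + 1)) z := pk_ez (h := fun _ => h z + 1) (z := z) S.gr h1 h2
  have h4 := S.nab_top
  have h5 : (Pk i (ez i (fun _ => h z + 1) z)).card = (lv P i).card - 1 := by omega
  rw [h5]

/-- **The second variation lemma.** The part of the window sum in which `z` is dangerous is divisible by
`(1 + X) ^ B` at the energies `cst z` and `cst z + 1`, and at `cst z + 2` up to the term with the label `h + 1`. -/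
theorem second (hnab : nab i z = 2) {N : Finset P} (hup : ∀ x ∈ N, ∀ y, x ≤ y → y ∈ N)
    (hNt : ∀ x ∈ N, x ≤ t) (hN2 : ∀ w ≤ t, lev w ≤ i + 2 → w ∈ N)
    (hN : ∀ a ≤ 2, (1 + X : ℤ[X]) ^ 2 ∣ Z {x : P // x ∈ N} i a)
    (hZ : ∀ n ≤ 2, (1 + X : ℤ[X]) ^ (lv P i).card ∣ Z P i n) :
    (1 + X : ℤ[X]) ^ (lv P i).card ∣ TZ i h z (cst i h z) ∧
    (1 + X : ℤ[X]) ^ (lv P i).card ∣ TZ i h z (cst i h z + 1) ∧
    (1 + X : ℤ[X]) ^ (lv P i).card ∣ TZ i h z (cst i h z + 2) -
      X ^ (below P i + nst i (fun _ => h z + 1) z) * (1 + X) ^ ((lv P i).card - 1) := by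
  have h0 := S.second' hnab hup hNt hN2 hN hZ (n := 0) (by norm_num)
  have h1 := S.second' hnab hup hNt hN2 hN hZ (n := 1) (by norm_num)
  have h2 := S.second' hnab hup hNt hN2 hN hZ (n := 2) le_rfl
  rw [if_neg (by norm_num), sub_zero, add_zero] at h0
  rw [if_neg (by norm_num), sub_zero] at h1
  rw [if_pos rfl, S.last_term hnab] at h2
  exact ⟨h0, h1, h2⟩

end SV

end

end Pool.Agent.GaussPoset.Sv
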