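import Pool.Agent.W_448sv_h97.SvF

/-!
# Second variation lemma (MP_448cb3_co, G2, S7), file SvG: the form of helper5 (helper97)
-/

namespace Pool.Agent.GaussPoset.Sv

set_option linter.unusedSectionVars false

open Polynomial Finset

universe u

variable {P : Type u} [Fintype P] [PartialOrder P] [DecidableEq P]

/-- the window sum of the poset of an upper set given by a predicate (any instances) -/
theorem Z_up_pred {i : ℕ} {pr : P → Prop} [Fintype {x : P // pr x}] [DecidableEq {x : P // pr x}]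
    {S : Finset P} (hS : ∀ x, pr x ↔ x ∈ S) (hup : ∀ x ∈ S, ∀ y, x ≤ y → y ∈ S)
    (hJ : ∀ x, x ∉ S → (∃ y ∈ S, x < y) → i ≤ lev x) (n : ℕ) :
    Z {x : P // pr x} i n = ∑ d ∈ S.piAntidiag n, tS S i d := by
  obtain rfl : pr = fun x => x ∈ S := funext fun x => propext (hS x)
  rw [← Z_up hup hJ n]
  congr!

open Classical in
/-- the part of the window sum with label at least `h` at `z` -/
noncomputable def TT (i h : ℕ) (z : P) (n : ℕ) : ℤ[X] :=
  ∑ F : Finset P, ∑ _e ∈ ((univ : Finset P).piAntidiag n).filter (fun e => Vd i e F ∧ h ≤ e z),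
    (X : ℤ[X]) ^ F.card

lemma TT_eq {i h : ℕ} {z : P} (hz : h ≤ lev z - i) (n : ℕ) : TT i h z n = TZ i (fun _ => h) z n := by
  classical
  unfold TT TZ
  refine Finset.sum_congr rfl fun F _ => Finset.sum_congr (Finset.filter_congr fun e _ => ?_)
    fun _ _ => rfl
  constructor
  · rintro ⟨h1, h2⟩
    exact ⟨h1, Or.inr h2⟩
  · rintro ⟨h1, h2 | h2⟩
    · exact ⟨h1, hz.trans (sub_le_of_mem h1 h2)⟩
    · exact ⟨h1, h2⟩

/-- **The second variation lemma**, in the form of helper5. -/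
theorem second_variation (hgr : GradedBelow P) {i h : ℕ} (hh : 5 ≤ h) {t z x p1 p2 y0 y1 y2 : P}
    (hlz : lev z = i + h + 2) (zx : z ⋖ x) (zx' : ∀ y, z ⋖ y → y = x)
    (xp1 : x ⋖ p1) (xp2 : x ⋖ p2) (xp' : ∀ y, x ⋖ y → y = p1 ∨ y = p2) (hp : p1 ≠ p2)
    (py0 : p1 ⋖ y0) (py1 : p1 ⋖ y1) (py' : ∀ y, p1 ⋖ y → y = y0 ∨ y = y1)
    (qy1 : p2 ⋖ y1) (qy2 : p2 ⋖ y2) (qy' : ∀ y, p2 ⋖ y → y = y1 ∨ y = y2)
    (h01 : y0 ≠ y1) (h12 : y1 ≠ y2) (h02 : y0 ≠ y2)
    (hyc : ∀ v, y1 ⋖ v → y0 ⋖ v ∨ y2 ⋖ v)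
    (htop : ∀ w, z ≤ w → w ≤ t) (hlow : ∀ y, y ≤ t → lev y ≤ i + 2 → z < y)
    (hnab : nab i z = 2) [Fintype {y : P // z < y}] [DecidableEq {y : P // z < y}]
    (hN : ∀ a ≤ 2, (1 + X : ℤ[X]) ^ 2 ∣ Z {y : P // z < y} i a)
    (hZ : ∀ n ≤ 2, (1 + X : ℤ[X]) ^ (lv P i).card ∣ Z P i n) :
    (1 + X : ℤ[X]) ^ (lv P i).card ∣ TT i h z (cst i (fun _ => h) z) ∧
    (1 + X : ℤ[X]) ^ (lv P i).card ∣ TT i h z (cst i (fun _ => h) z + 1) ∧
    (1 + X : ℤ[X]) ^ (lv P i).card ∣ TT i h z (cst i (fun _ => h) z + 2) -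
      X ^ (below P i + nst i (fun _ => h + 1) z) * (1 + X) ^ ((lv P i).card - 1) := by
  classical
  have S : SV i (fun _ => h) z x p1 p2 y0 y1 y2 t := by
    refine ⟨hgr, hlz, hh, fun w => ⟨zx' w, ?_⟩, fun w => ⟨xp' w, ?_⟩, hp, fun w => ⟨py' w, ?_⟩,
      fun w => ⟨fun h' => (qy' w h').symm, ?_⟩, h01, h12.symm, h02, hyc, htop,
      fun w h1 h2 => hlow w h1 h2⟩
    · rintro rfl; exact zx
    · rintro (rfl | rfl)
      · exact xp1
      · exact xp2
    · rintro (rfl | rfl)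
      · exact py0
      · exact py1
    · rintro (rfl | rfl)
      · exact qy2
      · exact qy1
  have hup : ∀ x ∈ univ.filter (fun y : P => z < y), ∀ y, x ≤ y →
      y ∈ univ.filter (fun y : P => z < y) := by
    intro x hx y hxy
    rw [mem_filter] at hx ⊢
    exact ⟨mem_univ _, hx.2.trans_le hxy⟩
  have hNt : ∀ x ∈ univ.filter (fun y : P => z < y), x ≤ t := fun x hx =>
    htop x (mem_filter.mp hx).2.le
  have hN2 : ∀ w ≤ t, lev w ≤ i + 2 → w ∈ univ.filter (fun y : P => z < y) := fun w h1 h2 =>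
    mem_filter.mpr ⟨mem_univ _, hlow w h1 h2⟩
  have hJ : ∀ x, x ∉ univ.filter (fun y : P => z < y) →
      (∃ y ∈ univ.filter (fun y : P => z < y), x < y) → i ≤ lev x := by
    rintro x hx ⟨y, hy, hxy⟩
    by_contra hcon
    exact hx (hN2 x (hxy.le.trans (hNt y hy)) (by omega))
  have h1 := S.second hnab hup hNt hN2 (fun a ha => by
    have h2 := hN a ha
    rw [Z_up_pred (S := univ.filter (fun y : P => z < y)) (fun x => by simp) hup hJ] at h2
    rw [Z_up hup hJ]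
    exact h2) hZ
  rw [TT_eq (by omega), TT_eq (by omega), TT_eq (by omega)]
  exact h1

end Pool.Agent.GaussPoset.Sv
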